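import Pool.Agent.P.MP_625351_al.Defs

namespace Pool.Agent.P.MP_625351_al

open LaurentPolynomial

/-! Words in a generating set -/

section Words

variable {Γ : Type*} [Group Γ]

/-- `g` is a product of at most `n` letters from `S ∪ S⁻¹`. -/
def W (S : Set Γ) (n : ℕ) (g : Γ) : Prop :=
  ∃ l : List Γ, (∀ s ∈ l, s ∈ S ∨ s⁻¹ ∈ S) ∧ l.length ≤ n ∧ l.prod = g

lemma W.mono {S : Set Γ} {n m : ℕ} {g : Γ} (h : W S n g) (hnm : n ≤ m) : W S m g := by
  obtain ⟨l, h1, h2, h3⟩ := h
  exact ⟨l, h1, h2.trans hnm, h3⟩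

lemma W.one (S : Set Γ) (n : ℕ) : W S n 1 := ⟨[], by simp, by simp, by simp⟩

lemma W.mul {S : Set Γ} {n m : ℕ} {g h : Γ} (hg : W S n g) (hh : W S m h) :
    W S (n + m) (g * h) := by
  obtain ⟨l, h1, h2, h3⟩ := hg
  obtain ⟨l', h1', h2', h3'⟩ := hh
  refine ⟨l ++ l', ?_, by simp; omega, by simp [h3, h3']⟩
  intro s hs
  rcases List.mem_append.1 hs with h | h
  · exact h1 s h
  · exact h1' s h

lemma W.inv {S : Set Γ} {n : ℕ} {g : Γ} (hg : W S n g) : W S n g⁻¹ := by
  obtain ⟨l, h1, h2, h3⟩ := hg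
  refine ⟨(l.map (·⁻¹)).reverse, ?_, by simpa using h2, ?_⟩
  · intro s hs
    simp only [List.mem_reverse, List.mem_map] at hs
    obtain ⟨t, ht, rfl⟩ := hs
    rcases h1 t ht with h | h
    · right; simpa using h
    · left; exact h
  · rw [← h3, List.prod_inv_reverse]

lemma W.pow {S : Set Γ} {n : ℕ} {g : Γ} (hg : W S n g) (k : ℕ) : W S (k * n) (g ^ k) := by
  induction k with
  | zero => simpa using W.one S 0
  | succ k ih => rw [pow_succ, Nat.succ_mul]; exact ih.mul hg

lemma exists_W {S : Set Γ} (hS : Subgroup.closure S = ⊤) (g : Γ) : ∃ n, W S n g := by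
  have hg : g ∈ Subgroup.closure S := by rw [hS]; trivial
  induction hg using Subgroup.closure_induction with
  | mem x hx => exact ⟨1, [x], by simp [hx], by simp, by simp⟩
  | one => exact ⟨0, W.one S 0⟩
  | mul x y _ _ hx hy =>
    obtain ⟨n, hn⟩ := hx
    obtain ⟨m, hm⟩ := hy
    exact ⟨n + m, hn.mul hm⟩
  | inv x _ hx =>
    obtain ⟨n, hn⟩ := hx
    exact ⟨n, hn.inv⟩

lemma W.map {Δ : Type*} [Group Δ] (f : Γ →* Δ) {S : Set Γ} {n : ℕ} {g : Γ} (hg : W S n g) :
    W (f '' S) n (f g) := by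
  obtain ⟨l, h1, h2, h3⟩ := hg
  refine ⟨l.map f, ?_, by simpa using h2, by rw [← h3, map_list_prod]⟩
  intro s hs
  obtain ⟨t, ht, rfl⟩ := List.mem_map.1 hs
  rcases h1 t ht with h | h
  · left; exact ⟨t, h, rfl⟩
  · right; exact ⟨t⁻¹, h, by simp⟩

lemma edist_le_of_list (S : Set Γ) (l : List Γ) (hl : ∀ s ∈ l, s ∈ S ∨ s⁻¹ ∈ S) (x : Γ) :
    (SimpleGraph.mulCayley S).edist x (x * l.prod) ≤ l.length := by
  induction l generalizing x with
  | nil => simp
  | cons s l ih =>
    have h1 : (SimpleGraph.mulCayley S).edist x (x * s) ≤ 1 := by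
      by_cases hx : x = x * s
      · rw [← hx]; simp
      · apply le_of_eq
        rw [SimpleGraph.edist_eq_one_iff_adj, SimpleGraph.mulCayley_adj]
        refine ⟨hx, ?_⟩
        simpa using hl s (by simp)
    have h2 := ih (fun t ht => hl t (by simp [ht])) (x * s)
    calc (SimpleGraph.mulCayley S).edist x (x * (s :: l).prod)
        ≤ (SimpleGraph.mulCayley S).edist x (x * s) +
          (SimpleGraph.mulCayley S).edist (x * s) (x * s * l.prod) := by
          rw [List.prod_cons, ← mul_assoc]; exact SimpleGraph.edist_triangle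
      _ ≤ 1 + (l.length : ℕ∞) := add_le_add h1 h2
      _ = ((s :: l).length : ℕ) := by simp [add_comm]

lemma W.edist_le {S : Set Γ} {n : ℕ} {g : Γ} (hg : W S n g) (x : Γ) :
    (SimpleGraph.mulCayley S).edist x (x * g) ≤ n := by
  obtain ⟨l, h1, h2, rfl⟩ := hg
  exact (edist_le_of_list S l h1 x).trans (by exact_mod_cast h2)

lemma diam_le_of_W {S : Set Γ} {n : ℕ} (h : ∀ g, W S n g) :
    (SimpleGraph.mulCayley S).diam ≤ n := by
  have : (SimpleGraph.mulCayley S).ediam ≤ n := by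
    apply SimpleGraph.ediam_le_of_edist_le
    intro u v
    simpa using (h (u⁻¹ * v)).edist_le u
  exact ENat.toNat_le_of_le_natCast this

lemma W_of_walk {S : Set Γ} {x y : Γ} (p : (SimpleGraph.mulCayley S).Walk x y) :
    W S p.length (x⁻¹ * y) := by
  induction p with
  | nil => simpa using W.one S 0
  | @cons u v w h p ih =>
    have h1 : W S 1 (u⁻¹ * v) := by
      rw [SimpleGraph.mulCayley_adj] at h
      refine ⟨[u⁻¹ * v], ?_, by simp, by simp⟩
      simpa using h.2
    have := h1.mul ih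
    simpa [mul_assoc, add_comm] using this

lemma W_diam [Finite Γ] {S : Set Γ} (hS : Subgroup.closure S = ⊤) (g : Γ) :
    W S (SimpleGraph.mulCayley S).diam g := by
  have hconn : (SimpleGraph.mulCayley S).Connected := by
    refine ⟨fun u v => ?_⟩
    obtain ⟨n, hn⟩ := exists_W hS (u⁻¹ * v)
    have := hn.edist_le u
    rw [mul_inv_cancel_left] at this
    rw [← SimpleGraph.edist_ne_top_iff_reachable]
    exact ne_top_of_le_ne_top (ENat.natCast_ne_top n) this
  have htop := SimpleGraph.connected_iff_ediam_ne_top.1 hconn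
  obtain ⟨p, hp⟩ := hconn.exists_walk_length_eq_dist 1 g
  have := W_of_walk p
  rw [inv_one, one_mul, hp] at this
  exact this.mono (SimpleGraph.dist_le_diam htop)

lemma W.lift {Δ : Type*} [Group Δ] (f : Γ →* Δ) {S : Set Γ} {n : ℕ} {x : Δ}
    (hx : W (f '' S) n x) : ∃ g, W S n g ∧ f g = x := by
  obtain ⟨l, h1, h2, rfl⟩ := hx
  induction l generalizing n with
  | nil => exact ⟨1, W.one S n, by simp⟩
  | cons s l ih =>
    obtain ⟨g, hg, hfg⟩ := ih (n := l.length) (fun t ht => h1 t (by simp [ht])) le_rfl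
    have hs : ∃ t, W S 1 t ∧ f t = s := by
      rcases h1 s (by simp) with ⟨t, ht, hts⟩ | ⟨t, ht, hts⟩
      · exact ⟨t, ⟨[t], by simp [ht], by simp, by simp⟩, hts⟩
      · exact ⟨t⁻¹, ⟨[t⁻¹], by simp [ht], by simp, by simp⟩, by simp [hts]⟩
    obtain ⟨t, ht, hts⟩ := hs
    refine ⟨t * g, (ht.mul hg).mono ?_, by simp [hts, hfg]⟩
    simp only [List.length_cons] at h2
    omega

lemma W.abs_le {S : Set Γ} {n : ℕ} {g : Γ} (hg : W S n g) (d : Γ → ℤ)
    (hd : ∀ a b, d (a * b) = d a + d b) (L : ℕ) (hL : ∀ s ∈ S, |d s| ≤ L) :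
    |d g| ≤ n * L := by
  have h1 : d 1 = 0 := by have := hd 1 1; simp at this; exact this
  have hinv : ∀ a, d a⁻¹ = - d a := by
    intro a; have := hd a a⁻¹; simp [h1] at this; omega
  obtain ⟨l, hl, h2, rfl⟩ := hg
  have : |d l.prod| ≤ l.length * L := by
    clear h2
    induction l with
    | nil => simp [h1]
    | cons s l ih =>
      have hs : |d s| ≤ L := by
        rcases hl s (by simp) with h | h
        · exact hL s h
        · have := hL _ h
          rwa [hinv, abs_neg] at this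
      have := ih (fun t ht => hl t (by simp [ht]))
      rw [List.prod_cons, hd, List.length_cons]
      push_cast
      have := abs_add_le (d s) (d l.prod)
      linarith
  refine this.trans ?_
  have : (l.length : ℤ) ≤ n := by exact_mod_cast h2
  exact mul_le_mul_of_nonneg_right this (by positivity)

end Words

/-! The matrix group -/

/-- The element `(X^n, P; 0, 1)`. -/
noncomputable def elt (n : ℤ) (P : LaurentPolynomial ℤ) : G :=
  ⟨⟨!![T n, P; 0, 1], !![T (-n), -(T (-n) * P); 0, 1], by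
      have h : (T n * T (-n) : LaurentPolynomial ℤ) = 1 := by rw [← T_add]; simp
      rw [Matrix.mul_fin_two, Matrix.one_fin_two, mul_neg, ← mul_assoc, h]
      simp only [mul_zero, add_zero, mul_one, zero_mul, zero_add, one_mul, neg_add_cancel], by
      have h : (T (-n) * T n : LaurentPolynomial ℤ) = 1 := by rw [← T_add]; simp
      rw [Matrix.mul_fin_two, Matrix.one_fin_two, h]
      simp only [mul_zero, add_zero, mul_one, zero_mul, zero_add, add_neg_cancel]⟩,
    n, P, rfl⟩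

lemma elt_val (n : ℤ) (P : LaurentPolynomial ℤ) :
    (((elt n P : G) : GL (Fin 2) (LaurentPolynomial ℤ)) :
      Matrix (Fin 2) (Fin 2) (LaurentPolynomial ℤ)) = !![T n, P; 0, 1] := rfl

lemma exists_elt (g : G) : ∃ n P, g = elt n P := by
  obtain ⟨g, n, P, h⟩ := g
  exact ⟨n, P, Subtype.ext (Units.ext h)⟩

lemma elt_mul (n m : ℤ) (P Q : LaurentPolynomial ℤ) :
    elt n P * elt m Q = elt (n + m) (T n * Q + P) := by
  apply Subtype.ext
  apply Units.ext
  rw [Subgroup.coe_mul, Units.val_mul, elt_val, elt_val, elt_val, T_add, Matrix.mul_fin_two]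
  simp only [mul_zero, add_zero, mul_one, zero_mul, zero_add]

lemma elt_zero : elt 0 0 = 1 := by
  apply Subtype.ext
  apply Units.ext
  rw [elt_val, T_zero]
  exact Matrix.one_fin_two.symm

lemma T_inj {n m : ℤ} (h : (T n : LaurentPolynomial ℤ) = T m) : n = m := by
  have := congrArg LaurentPolynomial.degree h
  rw [degree_T, degree_T] at this
  exact_mod_cast this

lemma elt_inj {n m : ℤ} {P Q : LaurentPolynomial ℤ} (h : elt n P = elt m Q) : n = m ∧ P = Q := by
  have h' : !![T n, P; 0, 1] = !![T m, Q; 0, 1] := by rw [← elt_val, ← elt_val, h]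
  have h0 := congrFun (congrFun h' 0) 0
  have h1 := congrFun (congrFun h' 0) 1
  exact ⟨T_inj h0, h1⟩

/-- The exponent `n` of an element of `G`. -/
noncomputable def deg (g : G) : ℤ := (exists_elt g).choose

lemma deg_elt (n : ℤ) (P : LaurentPolynomial ℤ) : deg (elt n P) = n := by
  obtain ⟨Q, hQ⟩ := (exists_elt (elt n P)).choose_spec
  exact (elt_inj hQ).1.symm

lemma deg_mul (a b : G) : deg (a * b) = deg a + deg b := by
  obtain ⟨n, P, rfl⟩ := exists_elt a
  obtain ⟨m, Q, rfl⟩ := exists_elt b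
  rw [elt_mul, deg_elt, deg_elt, deg_elt]

lemma mk_elt_eq_iff (I : Ideal (LaurentPolynomial ℤ)) (n m : ℤ) (P Q : LaurentPolynomial ℤ) :
    (QuotientGroup.mk (elt n P) : G ⧸ congr I) = QuotientGroup.mk (elt m Q) ↔
      T n - T m ∈ I ∧ P - Q ∈ I := by
  rw [QuotientGroup.eq, congr, Subgroup.mem_subgroupOf, MonoidHom.mem_ker, Subgroup.coe_mul,
    Subgroup.coe_inv, map_mul, map_inv, inv_mul_eq_one, ← Ideal.Quotient.eq, ← Ideal.Quotient.eq]
  constructor
  · intro h
    have h' := congrArg (fun u : GL (Fin 2) (LaurentPolynomial ℤ ⧸ I) =>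
      (u : Matrix (Fin 2) (Fin 2) (LaurentPolynomial ℤ ⧸ I))) h
    exact ⟨congrFun (congrFun h' 0) 0, congrFun (congrFun h' 0) 1⟩
  · rintro ⟨h0, h1⟩
    apply Units.ext
    ext i j
    fin_cases i <;> fin_cases j
    · exact h0
    · exact h1
    · rfl
    · rfl

lemma elt_mem_congr_iff (I : Ideal (LaurentPolynomial ℤ)) (n : ℤ) (P : LaurentPolynomial ℤ) :
    elt n P ∈ congr I ↔ T n - 1 ∈ I ∧ P ∈ I := by
  rw [← QuotientGroup.eq_one_iff, ← QuotientGroup.mk_one, ← elt_zero, mk_elt_eq_iff]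
  simp

lemma iInf_congr_eq_bot {I : ℕ → Ideal (LaurentPolynomial ℤ)} (h : ⨅ k, I k = ⊥) :
    ⨅ k, congr (I k) = ⊥ := by
  rw [eq_bot_iff]
  intro g hg
  obtain ⟨n, P, rfl⟩ := exists_elt g
  rw [Subgroup.mem_iInf] at hg
  simp only [elt_mem_congr_iff] at hg
  have h0 : T n - 1 ∈ ⨅ k, I k := Ideal.mem_iInf.2 fun k => (hg k).1
  have h1 : P ∈ ⨅ k, I k := Ideal.mem_iInf.2 fun k => (hg k).2
  rw [h, Ideal.mem_bot] at h0 h1
  have hn : n = 0 := T_inj (by rw [T_zero]; exact sub_eq_zero.1 h0)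
  rw [hn, h1, elt_zero]
  exact Subgroup.one_mem _

lemma closure_image_mk {S : Set G} (hS : Subgroup.closure S = ⊤)
    (I : Ideal (LaurentPolynomial ℤ)) :
    Subgroup.closure (QuotientGroup.mk '' S : Set (G ⧸ congr I)) = ⊤ := by
  have := MonoidHom.map_closure (QuotientGroup.mk' (congr I)) S
  rw [hS, Subgroup.map_top_of_surjective _ (QuotientGroup.mk'_surjective _)] at this
  exact this.symm

/-- `G / G(I)` embeds in `(A / I) × (A / I)`. -/
lemma exists_injective_quot (I : Ideal (LaurentPolynomial ℤ)) :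
    ∃ f : G ⧸ congr I → (LaurentPolynomial ℤ ⧸ I) × (LaurentPolynomial ℤ ⧸ I),
      Function.Injective f := by
  have hx : ∀ x : G ⧸ congr I, ∃ n P, x = QuotientGroup.mk (elt n P) := by
    intro x
    obtain ⟨g, rfl⟩ := QuotientGroup.mk_surjective x
    obtain ⟨n, P, rfl⟩ := exists_elt g
    exact ⟨n, P, rfl⟩
  choose n P h using hx
  refine ⟨fun x => (Ideal.Quotient.mk I (T (n x)), Ideal.Quotient.mk I (P x)), ?_⟩
  intro x y hxy
  simp only [Prod.mk.injEq, Ideal.Quotient.eq] at hxy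
  rw [h x, h y, mk_elt_eq_iff]
  exact hxy

lemma finite_quot (I : Ideal (LaurentPolynomial ℤ)) [Finite (LaurentPolynomial ℤ ⧸ I)] :
    Finite (G ⧸ congr I) := by
  obtain ⟨f, hf⟩ := exists_injective_quot I
  exact Finite.of_injective f hf

lemma card_quot_le (I : Ideal (LaurentPolynomial ℤ)) [Finite (LaurentPolynomial ℤ ⧸ I)] :
    Nat.card (G ⧸ congr I) ≤ Nat.card (LaurentPolynomial ℤ ⧸ I) ^ 2 := by
  obtain ⟨f, hf⟩ := exists_injective_quot I
  have := Nat.card_le_card_of_injective f hf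
  rwa [Nat.card_prod, ← sq] at this

lemma le_card_quot (I : Ideal (LaurentPolynomial ℤ)) [Finite (LaurentPolynomial ℤ ⧸ I)] :
    Nat.card (LaurentPolynomial ℤ ⧸ I) ≤ Nat.card (G ⧸ congr I) := by
  have := finite_quot I
  refine Nat.card_le_card_of_injective
    (fun x => (QuotientGroup.mk (elt 0 x.out) : G ⧸ congr I)) ?_
  intro x y hxy
  have := ((mk_elt_eq_iff I 0 0 _ _).1 hxy).2
  rw [← Ideal.Quotient.eq, Ideal.Quotient.mk_out, Ideal.Quotient.mk_out] at this
  exact this

end Pool.Agent.P.MP_625351_al
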