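import Mathlib

namespace Pool.Agent.P.MP_625351_al

/-- The group `ℤ ≀ ℤ`, realised as the group of matrices `(X^n, P; 0, 1)` in
`GL₂(ℤ[X, X⁻¹])`. -/
noncomputable def G : Subgroup (GL (Fin 2) (LaurentPolynomial ℤ)) where
  carrier := {g | ∃ (n : ℤ) (P : LaurentPolynomial ℤ),
    (g : Matrix (Fin 2) (Fin 2) (LaurentPolynomial ℤ)) = !![LaurentPolynomial.T n, P; 0, 1]}
  one_mem' := ⟨0, 0, by ext i j; fin_cases i <;> fin_cases j <;> simp⟩
  mul_mem' := by
    rintro a b ⟨n, P, ha⟩ ⟨m, Q, hb⟩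
    refine ⟨n + m, LaurentPolynomial.T n * Q + P, ?_⟩
    rw [Units.val_mul, ha, hb, LaurentPolynomial.T_add, Matrix.mul_fin_two]
    simp only [mul_zero, add_zero, mul_one, zero_mul, zero_add]
  inv_mem' := by
    rintro a ⟨n, P, ha⟩
    refine ⟨-n, -(LaurentPolynomial.T (-n) * P), ?_⟩
    rw [Matrix.coe_units_inv, ha]
    apply Matrix.inv_eq_left_inv
    have h : (LaurentPolynomial.T (-n) * LaurentPolynomial.T n : LaurentPolynomial ℤ) = 1 := by
      rw [← LaurentPolynomial.T_add]; simp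
    rw [Matrix.mul_fin_two, h, Matrix.one_fin_two]
    simp

/-- The congruence subgroup `G(I) = G ∩ ker (GL₂(A) → GL₂(A / I))`. -/
noncomputable def congr (I : Ideal (LaurentPolynomial ℤ)) : Subgroup G :=
  (Matrix.GeneralLinearGroup.map (n := Fin 2) (Ideal.Quotient.mk I)).ker.subgroupOf G

/-- `I₁ ⊇ I₂ ⊇ ⋯` are finite-index ideals and the congruence subgroups `G(I_k)` have trivial
intersection. -/
def IsCongruenceFiltration (I : ℕ → Ideal (LaurentPolynomial ℤ)) : Prop :=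
  Antitone I ∧ (∀ k, Finite (LaurentPolynomial ℤ ⧸ I k)) ∧ ⨅ k, congr (I k) = ⊥

/-- The congruence subgroup is normal. -/
instance congr_normal (I : Ideal (LaurentPolynomial ℤ)) : (congr I).Normal :=
  Subgroup.normal_subgroupOf

/-- Property `D_α` of the box space of the `G / G(I_k)` for the generating set `S`. -/
def HasD (S : Finset G) (I : ℕ → Ideal (LaurentPolynomial ℤ)) (α : ℝ) : Prop :=
  ∃ K : ℝ, 0 < K ∧ ∀ k,
    K * (Nat.card (G ⧸ congr (I k)) : ℝ) ^ α ≤
      ((SimpleGraph.mulCayley (QuotientGroup.mk '' (S : Set G) : Set (G ⧸ congr (I k)))).diam : ℝ)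

end Pool.Agent.P.MP_625351_al
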