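import Pool.Agent.P.MP_625351_al.Spectrum

namespace Pool.Agent.P.MP_625351_al

open LaurentPolynomial

/-- The ideal `(X^a - 2, 2^b - 1)`. -/
noncomputable def B (a b : ℕ) : Ideal (LaurentPolynomial ℤ) :=
  Ideal.span {T a - 2, 2 ^ b - 1}

lemma T_sub_two_mem_B (a b : ℕ) : (T a - 2 : LaurentPolynomial ℤ) ∈ B a b :=
  Ideal.subset_span (by simp)

lemma two_pow_sub_one_mem_B (a b : ℕ) : (2 ^ b - 1 : LaurentPolynomial ℤ) ∈ B a b :=
  Ideal.subset_span (by simp)

lemma T_mul_sub_pow_mem_B (a b j : ℕ) :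
    (T ((a * j : ℕ) : ℤ) - 2 ^ j : LaurentPolynomial ℤ) ∈ B a b := by
  have h : (T ((a * j : ℕ) : ℤ) : LaurentPolynomial ℤ) = T a ^ j := by
    rw [T_pow]; congr 1; push_cast; ring
  rw [h]
  obtain ⟨c, hc⟩ := sub_dvd_pow_sub_pow (T a : LaurentPolynomial ℤ) 2 j
  rw [hc]
  exact Ideal.mul_mem_right _ _ (T_sub_two_mem_B a b)

lemma T_sub_one_mem_B (a b : ℕ) :
    (T ((a * b : ℕ) : ℤ) - 1 : LaurentPolynomial ℤ) ∈ B a b := by
  have := add_mem (T_mul_sub_pow_mem_B a b b) (two_pow_sub_one_mem_B a b)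
  rwa [sub_add_sub_cancel] at this

lemma T_zmul_sub_one_mem {I : Ideal (LaurentPolynomial ℤ)} {m : ℤ}
    (h : (T m - 1 : LaurentPolynomial ℤ) ∈ I) (c : ℤ) :
    (T (m * c) - 1 : LaurentPolynomial ℤ) ∈ I := by
  induction c using Int.induction_on with
  | zero => simp
  | succ c ih =>
    have : (T (m * ((c : ℤ) + 1)) - 1 : LaurentPolynomial ℤ) =
        T m * (T (m * c) - 1) + (T m - 1) := by
      rw [mul_add, mul_one, T_add]; ring
    rw [this]
    exact add_mem (Ideal.mul_mem_left _ _ ih) h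
  | pred c ih =>
    have h1 : (T (-m) * T m : LaurentPolynomial ℤ) = 1 := by rw [← T_add]; simp
    have : (T (m * (-(c : ℤ) - 1)) - 1 : LaurentPolynomial ℤ) =
        T (-m) * (T (m * -(c : ℤ)) - 1) - T (-m) * (T m - 1) := by
      rw [mul_sub m, mul_one, T_sub]
      linear_combination h1
    rw [this]
    exact sub_mem (Ideal.mul_mem_left _ _ ih) (Ideal.mul_mem_left _ _ h)

lemma T_sub_T_emod_mem {I : Ideal (LaurentPolynomial ℤ)} {m : ℤ}
    (h : (T m - 1 : LaurentPolynomial ℤ) ∈ I) (n : ℤ) :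
    (T n - T (n % m) : LaurentPolynomial ℤ) ∈ I := by
  have : (T n - T (n % m) : LaurentPolynomial ℤ) = T (n % m) * (T (m * (n / m)) - 1) := by
    rw [mul_sub, ← T_add, mul_one, Int.emod_add_mul_ediv]
  rw [this]
  exact Ideal.mul_mem_left _ _ (T_zmul_sub_one_mem h _)

lemma B_le {a b t b' : ℕ} (hb : b ∣ b') : B (a * (1 + b * t)) b' ≤ B a b := by
  rw [B, Ideal.span_le]
  rintro x (rfl | rfl)
  · have h1 := T_zmul_sub_one_mem (T_sub_one_mem_B a b) t
    have : (T ((a * (1 + b * t) : ℕ) : ℤ) - 2 : LaurentPolynomial ℤ) =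
        T a * (T (((a * b : ℕ) : ℤ) * t) - 1) + (T a - 2) := by
      rw [mul_sub, ← T_add, mul_one, sub_add_sub_cancel]
      congr 2
      push_cast
      ring
    rw [this]
    exact add_mem (Ideal.mul_mem_left _ _ h1) (T_sub_two_mem_B a b)
  · obtain ⟨c, rfl⟩ := hb
    obtain ⟨d, hd⟩ := sub_dvd_pow_sub_pow ((2 : LaurentPolynomial ℤ) ^ b) 1 c
    rw [one_pow, ← pow_mul] at hd
    rw [SetLike.mem_coe, hd]
    exact Ideal.mul_mem_right _ _ (two_pow_sub_one_mem_B a b)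

lemma normal_B' {a b : ℕ} (ha : 0 < a) (hb : 0 < b) (P : LaurentPolynomial ℤ) :
    ∃ c : ℕ → ℤ, P - ∑ i ∈ Finset.range a, (c i : LaurentPolynomial ℤ) * T i ∈ B a b := by
  induction P using LaurentPolynomial.induction_on' with
  | add p q hp hq =>
    obtain ⟨c, hc⟩ := hp
    obtain ⟨d, hd⟩ := hq
    refine ⟨c + d, ?_⟩
    have h : p + q - ∑ i ∈ Finset.range a, ((c + d) i : LaurentPolynomial ℤ) * T i =
        (p - ∑ i ∈ Finset.range a, (c i : LaurentPolynomial ℤ) * T i) +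
        (q - ∑ i ∈ Finset.range a, (d i : LaurentPolynomial ℤ) * T i) := by
      simp only [Pi.add_apply, Int.cast_add, add_mul, Finset.sum_add_distrib]
      ring
    rw [h]
    exact add_mem hc hd
  | C_mul_T n z =>
    have hab : 0 < a * b := Nat.mul_pos ha hb
    have h0 : 0 ≤ n % ((a * b : ℕ) : ℤ) := Int.emod_nonneg _ (by omega)
    obtain ⟨r, hr⟩ := Int.eq_ofNat_of_zero_le h0
    have h1 := T_sub_T_emod_mem (T_sub_one_mem_B a b) n
    rw [hr] at h1
    have h2 := T_mul_sub_pow_mem_B a b (r / a)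
    refine ⟨fun i => if i = r % a then z * 2 ^ (r / a) else 0, ?_⟩
    rw [Finset.sum_eq_single (r % a)]
    · simp only [if_true]
      have h3 : (C z : LaurentPolynomial ℤ) = (z : LaurentPolynomial ℤ) := by simp
      have h4 : (T (r : ℤ) : LaurentPolynomial ℤ) =
          T ((a * (r / a) : ℕ) : ℤ) * T ((r % a : ℕ) : ℤ) := by
        rw [← T_add, ← Nat.cast_add, Nat.div_add_mod]
      have h5 : (z : LaurentPolynomial ℤ) * T n -
          ((z * 2 ^ (r / a) : ℤ) : LaurentPolynomial ℤ) * T ((r % a : ℕ) : ℤ) =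
          (z : LaurentPolynomial ℤ) * (T n - T (r : ℤ)) + (z : LaurentPolynomial ℤ) *
            T ((r % a : ℕ) : ℤ) * (T ((a * (r / a) : ℕ) : ℤ) - 2 ^ (r / a)) := by
        rw [h4, Int.cast_mul, Int.cast_pow, Int.cast_ofNat]
        ring
      rw [h3, h5]
      exact add_mem (Ideal.mul_mem_left _ _ h1) (Ideal.mul_mem_left _ _ h2)
    · intro i _ hi
      simp [hi]
    · intro h
      exact absurd (Finset.mem_range.2 (Nat.mod_lt _ ha)) h

lemma exists_bits (b c : ℕ) (hc : c < 2 ^ b) :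
    ∃ e : ℕ → ℕ, (∀ j, e j ≤ 1) ∧ c = ∑ j ∈ Finset.range b, e j * 2 ^ j := by
  induction b generalizing c with
  | zero => exact ⟨fun _ => 0, by simp, by simpa using hc⟩
  | succ b ih =>
    obtain ⟨e, he, hce⟩ := ih (c / 2) (by rw [pow_succ] at hc; omega)
    refine ⟨fun j => Nat.casesOn j (c % 2) e, ?_, ?_⟩
    · intro j
      cases j with
      | zero => show c % 2 ≤ 1; omega
      | succ j => exact he j
    · rw [Finset.sum_range_succ']
      have h : ∑ j ∈ Finset.range b, e j * 2 ^ (j + 1) = 2 * (c / 2) := by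
        rw [hce, Finset.mul_sum]
        refine Finset.sum_congr rfl fun j _ => by ring
      show c = ∑ j ∈ Finset.range b, e j * 2 ^ (j + 1) + c % 2 * 2 ^ 0
      rw [h]
      omega

lemma normal_B {a b : ℕ} (ha : 0 < a) (hb : 0 < b) (P : LaurentPolynomial ℤ) :
    ∃ e : ℕ → ℕ → ℕ, (∀ i j, e i j ≤ 1) ∧
      P - ∑ j ∈ Finset.range b, T ((a * j : ℕ) : ℤ) *
        ∑ i ∈ Finset.range a, T ((1 * i : ℕ) : ℤ) * (e i j : LaurentPolynomial ℤ) ∈ B a b := by
  obtain ⟨c, hc⟩ := normal_B' ha hb P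
  have hq : (0 : ℤ) < 2 ^ b - 1 := by
    have : (2 : ℤ) ^ 1 ≤ 2 ^ b := pow_le_pow_right₀ (by norm_num) hb
    omega
  have hbits : ∀ i, ∃ e : ℕ → ℕ, (∀ j, e j ≤ 1) ∧
      (c i % (2 ^ b - 1)).toNat = ∑ j ∈ Finset.range b, e j * 2 ^ j := by
    intro i
    apply exists_bits
    have h0 := Int.emod_nonneg (c i) hq.ne'
    have h1 := Int.emod_lt_of_pos (c i) hq
    have h2 : ((c i % (2 ^ b - 1)).toNat : ℤ) < ((2 ^ b : ℕ) : ℤ) := by
      rw [Int.toNat_of_nonneg h0]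
      push_cast
      omega
    exact_mod_cast h2
  choose e he hce using hbits
  refine ⟨e, he, ?_⟩
  have h1 : ∀ i, (c i : LaurentPolynomial ℤ) -
      ∑ j ∈ Finset.range b, (e i j : LaurentPolynomial ℤ) * T ((a * j : ℕ) : ℤ) ∈ B a b := by
    intro i
    have h0 := Int.emod_nonneg (c i) hq.ne'
    have h2 : c i = (2 ^ b - 1) * (c i / (2 ^ b - 1)) +
        ((∑ j ∈ Finset.range b, e i j * 2 ^ j : ℕ) : ℤ) := by
      rw [← hce i, Int.toNat_of_nonneg h0]
      have := Int.emod_add_mul_ediv (c i) (2 ^ b - 1)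
      linarith
    have h3 : (c i : LaurentPolynomial ℤ) -
        ∑ j ∈ Finset.range b, (e i j : LaurentPolynomial ℤ) * T ((a * j : ℕ) : ℤ) =
        (2 ^ b - 1) * ((c i / (2 ^ b - 1) : ℤ) : LaurentPolynomial ℤ) -
          ∑ j ∈ Finset.range b, (e i j : LaurentPolynomial ℤ) *
            (T ((a * j : ℕ) : ℤ) - 2 ^ j) := by
      have h4 := congrArg (Int.cast : ℤ → LaurentPolynomial ℤ) h2
      rw [Int.cast_add, Int.cast_mul, Int.cast_sub, Int.cast_pow, Int.cast_ofNat, Int.cast_one,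
        Int.cast_natCast, Nat.cast_sum] at h4
      simp only [Nat.cast_mul, Nat.cast_pow, Nat.cast_ofNat] at h4
      simp only [mul_sub, Finset.sum_sub_distrib]
      linear_combination h4
    rw [h3]
    exact sub_mem (Ideal.mul_mem_right _ _ (two_pow_sub_one_mem_B a b))
      (Ideal.sum_mem _ fun j _ => Ideal.mul_mem_left _ _ (T_mul_sub_pow_mem_B a b j))
  have h2 : P - ∑ j ∈ Finset.range b, T ((a * j : ℕ) : ℤ) *
        ∑ i ∈ Finset.range a, T ((1 * i : ℕ) : ℤ) * (e i j : LaurentPolynomial ℤ) =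
      (P - ∑ i ∈ Finset.range a, (c i : LaurentPolynomial ℤ) * T i) +
        ∑ i ∈ Finset.range a, ((c i : LaurentPolynomial ℤ) -
          ∑ j ∈ Finset.range b, (e i j : LaurentPolynomial ℤ) * T ((a * j : ℕ) : ℤ)) * T i := by
    simp only [sub_mul, Finset.sum_sub_distrib, Finset.sum_mul, Finset.mul_sum, one_mul]
    rw [Finset.sum_comm, sub_add_sub_cancel]
    congr 1
    refine Finset.sum_congr rfl fun i _ => Finset.sum_congr rfl fun j _ => by ring
  rw [h2]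
  exact add_mem hc (Ideal.sum_mem _ fun i _ => Ideal.mul_mem_right _ _ (h1 i))

lemma finite_quot_B {a b : ℕ} (ha : 0 < a) (hb : 0 < b) :
    Finite (LaurentPolynomial ℤ ⧸ B a b) := by
  refine Finite.of_surjective (fun e : Fin a → Fin b → Fin 2 => Ideal.Quotient.mk (B a b)
    (∑ j : Fin b, T ((a * j : ℕ) : ℤ) *
      ∑ i : Fin a, T ((1 * i : ℕ) : ℤ) * ((e i j : ℕ) : LaurentPolynomial ℤ))) ?_
  intro x
  obtain ⟨P, rfl⟩ := Ideal.Quotient.mk_surjective x
  obtain ⟨e, he, hP⟩ := normal_B ha hb P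
  refine ⟨fun i j => ⟨e i j, Nat.lt_succ_of_le (he i j)⟩, ?_⟩
  symm
  rw [Ideal.Quotient.eq]
  simp only [Finset.sum_range] at hP
  exact hP

lemma W_horner {S : Set G} {n a : ℕ} (Q : ℕ → LaurentPolynomial ℤ)
    (hQ : ∀ j, W S n (elt a (Q j))) (b : ℕ) :
    W S (b * n) (elt ((a * b : ℕ) : ℤ) (∑ j ∈ Finset.range b, T ((a * j : ℕ) : ℤ) * Q j)) := by
  induction b with
  | zero => simpa [elt_zero] using W.one S 0
  | succ b ih =>
    have h := ih.mul (hQ b)
    rw [elt_mul, ← Nat.cast_add, ← Nat.mul_succ, add_comm (T _ * _), ← Finset.sum_range_succ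
      (fun j => T ((a * j : ℕ) : ℤ) * Q j), ← Nat.succ_mul] at h
    exact h

lemma W_normal {S : Set G} {L : ℕ} (ht : W S L (elt 1 0)) (ha : W S L (elt 0 1)) (a b : ℕ)
    (e : ℕ → ℕ → ℕ) (he : ∀ i j, e i j ≤ 1) :
    W S (b * (a * (2 * L))) (elt ((a * b : ℕ) : ℤ) (∑ j ∈ Finset.range b, T ((a * j : ℕ) : ℤ) *
      ∑ i ∈ Finset.range a, T ((1 * i : ℕ) : ℤ) * (e i j : LaurentPolynomial ℤ))) := by
  apply W_horner
  intro j
  have h := W_horner (S := S) (n := 2 * L) (a := 1) (fun i => (e i j : LaurentPolynomial ℤ))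
    (fun i => by
      have h1 := (ha.pow (e i j)).mul ht
      rw [elt_zero_pow, elt_mul, zero_add, mul_zero, zero_add] at h1
      refine W.mono h1 ?_
      nlinarith [Nat.mul_le_mul_right L (he i j)]) a
  rwa [one_mul a] at h

/-- The polynomial `X^a - 2` over `ℤ / (2^b - 1)`. -/
noncomputable def fB (a b : ℕ) : Polynomial (ZMod (2 ^ b - 1)) :=
  Polynomial.X ^ a - Polynomial.C 2

lemma fB_monic {a : ℕ} (ha : 0 < a) (b : ℕ) : (fB a b).Monic :=
  Polynomial.monic_X_pow_sub_C 2 ha.ne'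

lemma two_pow_zmod (b : ℕ) : (2 : ZMod (2 ^ b - 1)) ^ b = 1 := by
  have h := ZMod.natCast_self (2 ^ b - 1)
  rw [Nat.cast_sub Nat.one_le_two_pow] at h
  push_cast at h
  exact sub_eq_zero.1 h

lemma exists_hom_B {a b : ℕ} (ha : 0 < a) (hb : 0 < b) :
    ∃ φ : LaurentPolynomial ℤ →+* AdjoinRoot (fB a b), B a b ≤ RingHom.ker φ ∧
      ∀ q : Polynomial ℤ, φ (Polynomial.toLaurent q) =
        AdjoinRoot.mk (fB a b) (q.map (Int.castRingHom (ZMod (2 ^ b - 1)))) := by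
  have hroot : AdjoinRoot.root (fB a b) ^ a = 2 := by
    have := AdjoinRoot.mk_self (f := fB a b)
    rw [fB, map_sub, map_pow, AdjoinRoot.mk_X, AdjoinRoot.mk_C, map_ofNat] at this
    exact sub_eq_zero.1 this
  have htwo : (2 : AdjoinRoot (fB a b)) ^ b = 1 := by
    have := congrArg (AdjoinRoot.of (fB a b)) (two_pow_zmod b)
    rwa [map_pow, map_ofNat, map_one] at this
  have hroot' : AdjoinRoot.root (fB a b) ^ (a * b) = 1 := by rw [pow_mul, hroot, htwo]
  let u : (AdjoinRoot (fB a b))ˣ := Units.ofPowEqOne _ (a * b) hroot' (Nat.mul_pos ha hb).ne'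
  have hu : (u : AdjoinRoot (fB a b)) = AdjoinRoot.root (fB a b) := rfl
  refine ⟨eval₂ (Int.castRingHom _) u, ?_, fun q => ?_⟩
  · rw [B, Ideal.span_le]
    rintro x (rfl | rfl)
    · simp only [SetLike.mem_coe, RingHom.mem_ker, map_sub, map_ofNat, eval₂_T_n]
      rw [hu, hroot, sub_self]
    · simp only [SetLike.mem_coe, RingHom.mem_ker, map_sub, map_pow, map_ofNat, map_one]
      rw [htwo, sub_self]
  · rw [eval₂_toLaurent, ← AdjoinRoot.aeval_eq, Polynomial.aeval_def, Polynomial.eval₂_map, hu]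
    congr 1

lemma pow_le_card_B {a b : ℕ} (ha : 0 < a) (hb : 2 ≤ b) :
    (2 ^ b - 1) ^ a ≤ Nat.card (LaurentPolynomial ℤ ⧸ B a b) := by
  have := finite_quot_B (b := b) ha (by omega)
  obtain ⟨φ, hker, hφ⟩ := exists_hom_B (b := b) ha (by omega)
  have h4 : 2 ^ 2 ≤ 2 ^ b := Nat.pow_le_pow_right (by norm_num) hb
  have : Fact (1 < 2 ^ b - 1) := ⟨by omega⟩
  have hsurj : Function.Surjective (Ideal.Quotient.lift (B a b) φ (fun x hx => hker hx)) := by
    intro x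
    obtain ⟨p, rfl⟩ := AdjoinRoot.mk_surjective x
    obtain ⟨q, rfl⟩ := Polynomial.map_surjective (Int.castRingHom (ZMod (2 ^ b - 1)))
      (ZMod.ringHom_surjective _) p
    exact ⟨Ideal.Quotient.mk _ (Polynomial.toLaurent q), hφ q⟩
  have hc := Nat.card_le_card_of_surjective _ hsurj
  have hdeg : (fB a b).natDegree = a := Polynomial.natDegree_X_pow_sub_C
  rwa [Nat.card_congr (AdjoinRoot.powerBasis' (fB_monic ha b)).basis.equivFun.toEquiv,
    Nat.card_fun, Nat.card_zmod, Nat.card_eq_fintype_card, Fintype.card_fin,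
    AdjoinRoot.powerBasis'_dim, hdeg] at hc

lemma iInf_B {a b : ℕ → ℕ} (ha : ∀ k, k < a k) (hb : ∀ k, k + 2 ≤ b k) :
    ⨅ k, B (a k) (b k) = ⊥ := by
  rw [eq_bot_iff]
  intro P hP
  rw [Ideal.mem_iInf] at hP
  obtain ⟨n, p, hp⟩ := exists_T_pow P
  have h0 : p = 0 := by
    ext i
    obtain ⟨k, hk1, hk2⟩ : ∃ k, p.natDegree ≤ k ∧ (p.coeff i).natAbs ≤ k :=
      ⟨max p.natDegree (p.coeff i).natAbs, le_max_left _ _, le_max_right _ _⟩
    have ha0 : 0 < a k := lt_of_le_of_lt (Nat.zero_le k) (ha k)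
    obtain ⟨φ, hker, hφ⟩ := exists_hom_B (a := a k) (b := b k) ha0 (by have := hb k; omega)
    have h1 : φ (Polynomial.toLaurent p) = 0 := by
      rw [hp]
      exact hker (Ideal.mul_mem_right _ _ (hP k))
    have h4 : 2 ^ (k + 2) ≤ 2 ^ b k := Nat.pow_le_pow_right (by norm_num) (hb k)
    have h5 := Nat.lt_two_pow_self (n := k)
    rw [pow_add] at h4
    have : Fact (1 < 2 ^ b k - 1) := ⟨by omega⟩
    rw [hφ, AdjoinRoot.mk_eq_zero] at h1
    have hdeg : (fB (a k) (b k)).natDegree = a k := Polynomial.natDegree_X_pow_sub_C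
    have h2 : p.map (Int.castRingHom (ZMod (2 ^ b k - 1))) = 0 := by
      by_contra h
      refine (fB_monic ha0 (b k)).not_dvd_of_natDegree_lt h ?_ h1
      rw [hdeg]
      exact lt_of_le_of_lt (Polynomial.natDegree_map_le.trans hk1) (ha k)
    have h3 := congrArg (fun q => Polynomial.coeff q i) h2
    simp only [Polynomial.coeff_map, eq_intCast, Polynomial.coeff_zero,
      ZMod.intCast_zmod_eq_zero_iff_dvd] at h3
    rw [Polynomial.coeff_zero]
    exact Int.eq_zero_of_dvd_of_natAbs_lt_natAbs h3 (by rw [Int.natAbs_natCast]; omega)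
  rw [h0, map_zero] at hp
  exact (isUnit_T (n : ℤ)).mul_left_eq_zero.1 hp.symm

/-- The ideal of the `P ∈ (X^a - 2, 2^b - 1)` with `N ∣ P(1)`. -/
noncomputable def BN (a b N : ℕ) : Ideal (LaurentPolynomial ℤ) :=
  RingHom.ker ((Ideal.Quotient.mk (B a b)).prod ((Int.castRingHom (ZMod N)).comp ev1))

lemma mem_BN {a b N : ℕ} {P : LaurentPolynomial ℤ} :
    P ∈ BN a b N ↔ P ∈ B a b ∧ (N : ℤ) ∣ ev1 P := by
  rw [BN, RingHom.mem_ker, RingHom.prod_apply, Prod.mk_eq_zero, Ideal.Quotient.eq_zero_iff_mem,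
    RingHom.comp_apply, eq_intCast, ZMod.intCast_zmod_eq_zero_iff_dvd]

lemma finite_BN {a b N : ℕ} (ha : 0 < a) (hb : 0 < b) (hN : 0 < N) :
    Finite (LaurentPolynomial ℤ ⧸ BN a b N) := by
  have := finite_quot_B ha hb
  have : NeZero N := ⟨hN.ne'⟩
  exact Finite.of_injective _ (RingHom.kerLift_injective _)

lemma two_sub_T_mem_B (a b : ℕ) : (2 - T a : LaurentPolynomial ℤ) ∈ B a b := by
  rw [← neg_sub]
  exact neg_mem (T_sub_two_mem_B a b)

lemma ev1_two_sub_T (a : ℕ) : ev1 (2 - T a) = 1 := by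
  rw [map_sub, ev1_T, map_ofNat]
  norm_num

lemma card_BN {a b N : ℕ} (hN : 0 < N) :
    Nat.card (G ⧸ congr (BN a b N)) = Nat.card (G ⧸ congr (B a b)) * N := by
  have : NeZero N := ⟨hN.ne'⟩
  let τ : G →* Multiplicative (ZMod N) :=
    MonoidHom.mk' (fun g => Multiplicative.ofAdd ((tot g : ℤ) : ZMod N)) (by
      intro a b
      rw [tot_mul, Int.cast_add, ofAdd_add])
  have hτ : ∀ n P, τ (elt n P) = Multiplicative.ofAdd ((ev1 P : ℤ) : ZMod N) := fun _ _ => rfl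
  let φ := (QuotientGroup.mk' (congr (B a b))).prod τ
  have hker : φ.ker = congr (BN a b N) := by
    ext g
    obtain ⟨n, P, rfl⟩ := exists_elt g
    rw [MonoidHom.ker_prod, Subgroup.mem_inf, QuotientGroup.ker_mk', elt_mem_congr_iff,
      elt_mem_congr_iff, MonoidHom.mem_ker, hτ, ofAdd_eq_one, ZMod.intCast_zmod_eq_zero_iff_dvd,
      mem_BN, mem_BN, map_sub, ev1_T, map_one, sub_self]
    simp only [dvd_zero, and_true, and_assoc]
  have hsurj : φ.range = ⊤ := by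
    rw [MonoidHom.range_eq_top]
    rintro ⟨x, t⟩
    obtain ⟨g, rfl⟩ := QuotientGroup.mk_surjective x
    obtain ⟨n, P, rfl⟩ := exists_elt g
    obtain ⟨z, hz⟩ := ZMod.intCast_surjective (Multiplicative.toAdd t)
    refine ⟨elt n (P + ((z - ev1 P : ℤ) : LaurentPolynomial ℤ) * (2 - T a)), Prod.ext ?_ ?_⟩
    · refine (mk_elt_eq_iff _ _ _ _ _).2 ⟨by simp, ?_⟩
      rw [add_sub_cancel_left]
      exact Ideal.mul_mem_left _ _ (two_sub_T_mem_B a b)
    · show τ _ = t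
      rw [hτ, ← ofAdd_toAdd t, ← hz, map_add, map_mul, ev1_two_sub_T, map_intCast ev1,
        mul_one, Int.cast_id, add_sub_cancel]
  have h1 := Subgroup.index_ker φ
  rw [hker, hsurj, Subgroup.card_top, Nat.card_prod, Nat.card_congr Multiplicative.toAdd,
    Nat.card_zmod] at h1
  exact h1

lemma diam_BN_le {S : Set G} {L a b N : ℕ} (ha0 : 0 < a) (hb0 : 0 < b) (hN : 0 < N)
    (ht : W S L (elt 1 0)) (ha : W S L (elt 0 1)) :
    (SimpleGraph.mulCayley (QuotientGroup.mk '' S : Set (G ⧸ congr (BN a b N)))).diam ≤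
      5 * (a * b) * L + 3 * N * L := by
  apply diam_le_of_W
  intro x
  obtain ⟨g, rfl⟩ := QuotientGroup.mk_surjective x
  obtain ⟨n, P, rfl⟩ := exists_elt g
  obtain ⟨e, he, hP⟩ := normal_B ha0 hb0 P
  have hab : 0 < a * b := Nat.mul_pos ha0 hb0
  have h0 : 0 ≤ n % ((a * b : ℕ) : ℤ) := Int.emod_nonneg _ (by omega)
  have h1 : n % ((a * b : ℕ) : ℤ) < ((a * b : ℕ) : ℤ) := Int.emod_lt_of_pos _ (by omega)
  have h2 := (W_normal ht ha a b e he).mul (ht.pow (n % ((a * b : ℕ) : ℤ)).toNat)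
  rw [elt_one_pow, elt_mul, Int.toNat_of_nonneg h0, mul_zero, zero_add] at h2
  generalize (∑ j ∈ Finset.range b, T ((a * j : ℕ) : ℤ) *
      ∑ i ∈ Finset.range a, T ((1 * i : ℕ) : ℤ) * (e i j : LaurentPolynomial ℤ)) = Q at hP h2
  have h3 : 0 ≤ (ev1 P - ev1 Q) % N := Int.emod_nonneg _ (by omega)
  have h4 : (ev1 P - ev1 Q) % N < N := Int.emod_lt_of_pos _ (by omega)
  obtain ⟨s, hs⟩ := Int.eq_ofNat_of_zero_le h3
  have hsN : s ≤ N := by omega
  have h5 : W S (a * L + s * L + a * L) (elt 0 ((s : LaurentPolynomial ℤ) * T a)) := by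
    rw [elt_conj]
    exact ((ht.pow a).mul (ha.pow s)).mul (ht.pow a).inv
  have h6 : elt 0 ((s : LaurentPolynomial ℤ) * (2 - T a)) =
      elt 0 1 ^ (2 * s) * (elt 0 ((s : LaurentPolynomial ℤ) * T a))⁻¹ := by
    rw [eq_mul_inv_iff_mul_eq, elt_zero_pow, elt_mul, add_zero, T_zero, one_mul]
    congr 1
    push_cast
    ring
  have h7 := ((ha.pow (2 * s)).mul h5.inv).mul h2
  rw [← h6, elt_mul, zero_add, T_zero, one_mul] at h7
  have h8 := h7.map (QuotientGroup.mk' (congr (BN a b N)))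
  have h9 : (QuotientGroup.mk (elt n P) : G ⧸ congr (BN a b N)) =
      QuotientGroup.mk (elt (((a * b : ℕ) : ℤ) + n % ((a * b : ℕ) : ℤ))
        (Q + (s : LaurentPolynomial ℤ) * (2 - T a))) := by
    refine (mk_elt_eq_iff _ _ _ _ _).2 ⟨mem_BN.2 ⟨?_, ?_⟩, mem_BN.2 ⟨?_, ?_⟩⟩
    · have h : (T n - T (((a * b : ℕ) : ℤ) + n % ((a * b : ℕ) : ℤ)) : LaurentPolynomial ℤ) =
          (T n - T (n % ((a * b : ℕ) : ℤ))) -
            T (n % ((a * b : ℕ) : ℤ)) * (T ((a * b : ℕ) : ℤ) - 1) := by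
        rw [T_add]
        ring
      rw [h]
      exact sub_mem (T_sub_T_emod_mem (T_sub_one_mem_B a b) n)
        (Ideal.mul_mem_left _ _ (T_sub_one_mem_B a b))
    · rw [map_sub, ev1_T, ev1_T, sub_self]
      exact dvd_zero _
    · rw [← sub_sub]
      exact sub_mem hP (Ideal.mul_mem_left _ _ (two_sub_T_mem_B a b))
    · rw [map_sub, map_add, map_mul, ev1_two_sub_T, map_natCast, mul_one, ← sub_sub, ← hs]
      exact Int.dvd_self_sub_emod
  rw [h9]
  refine W.mono h8 ?_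
  have h10 : (n % ((a * b : ℕ) : ℤ)).toNat ≤ a * b := by omega
  have h11 : a ≤ a * b := Nat.le_mul_of_pos_right a hb0
  nlinarith [Nat.mul_le_mul_right L h10, Nat.mul_le_mul_right L h11,
    Nat.mul_le_mul_right L hsN]

lemma le_diam_BN {S : Set G} (hS : Subgroup.closure S = ⊤) {L a b h : ℕ} (ha : 0 < a)
    (hb : 0 < b) (hh : 0 < h) (hL : ∀ s ∈ S, |tot s| ≤ L) :
    h ≤ (SimpleGraph.mulCayley
      (QuotientGroup.mk '' S : Set (G ⧸ congr (BN a b (2 * h))))).diam * L := by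
  have := finite_BN (N := 2 * h) ha hb (by omega)
  have := finite_quot (BN a b (2 * h))
  have hW := W_diam (closure_image_mk hS (BN a b (2 * h)))
    (QuotientGroup.mk (elt 0 (h : LaurentPolynomial ℤ)))
  obtain ⟨g, hg, hgx⟩ := W.lift (QuotientGroup.mk' (congr (BN a b (2 * h)))) hW
  have hb := hg.abs_le tot tot_mul L hL
  obtain ⟨n, P, rfl⟩ := exists_elt g
  rw [tot_elt] at hb
  obtain ⟨-, h2⟩ := mem_BN.1 ((mk_elt_eq_iff _ _ _ _ _).1 hgx).2
  rw [map_sub, map_natCast] at h2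
  obtain ⟨c, hc⟩ := h2
  have h5 : ev1 P = (h : ℤ) * (1 + 2 * c) := by
    push_cast at hc
    linear_combination hc
  have h6 : 1 ≤ |1 + 2 * c| := Int.one_le_abs (by omega)
  have h7 : (h : ℤ) ≤ |ev1 P| := by
    rw [h5, abs_mul, abs_of_nonneg (by positivity : (0 : ℤ) ≤ (h : ℤ))]
    exact le_mul_of_one_le_right (by positivity) h6
  exact_mod_cast h7.trans hb

lemma card_quot_antitone {I I' : Ideal (LaurentPolynomial ℤ)} (h : I ≤ I')
    [Finite (LaurentPolynomial ℤ ⧸ I)] : Nat.card (G ⧸ congr I') ≤ Nat.card (G ⧸ congr I) := by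
  have := finite_quot I
  have : (congr I).FiniteIndex := Subgroup.finiteIndex_of_finite_quotient
  refine Subgroup.index_antitone (H := congr I) (K := congr I') fun g hg => ?_
  obtain ⟨n, P, rfl⟩ := exists_elt g
  rw [elt_mem_congr_iff] at hg ⊢
  exact ⟨h hg.1, h hg.2⟩

lemma exists_base : ∃ a b : ℕ → ℕ, (∀ k, k < a k) ∧ (∀ k, k + 2 ≤ b k) ∧
    Antitone fun k => B (a k) (b k) := by
  obtain ⟨a, h0, h1⟩ : ∃ a : ℕ → ℕ, a 0 = 1 ∧ ∀ k, a (k + 1) = a k * (1 + 2 ^ (k + 2) * 1) :=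
    ⟨fun k => Nat.rec 1 (fun k x => x * (1 + 2 ^ (k + 2) * 1)) k, rfl, fun _ => rfl⟩
  refine ⟨a, fun k => 2 ^ (k + 2), fun k => ?_, fun k => Nat.lt_two_pow_self.le, ?_⟩
  · induction k with
    | zero => omega
    | succ k ih =>
      have : 1 ≤ 2 ^ (k + 2) := Nat.one_le_two_pow
      rw [h1]
      nlinarith
  · apply antitone_nat_of_succ_le
    intro k
    rw [h1]
    exact B_le (pow_dvd_pow 2 (by omega))

theorem profile (f : ℕ → ℝ) (hf : Monotone f) {κ : ℝ} (hκ : 0 < κ)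
    (hlog : ∀ᶠ n : ℕ in Filter.atTop, κ * Real.log n ≤ f n)
    (ho : Filter.Tendsto (fun n : ℕ => f n / n) Filter.atTop (nhds 0)) (n₁ : ℕ) :
    ∃ I : ℕ → Ideal (LaurentPolynomial ℤ), IsCongruenceFiltration I ∧
      (∀ k, n₁ ≤ Nat.card (G ⧸ congr (I k))) ∧
      ∀ S : Finset G, Subgroup.closure (S : Set G) = ⊤ → ∃ c C : ℝ, 0 < c ∧ ∀ k,
        c * f (Nat.card (G ⧸ congr (I k))) ≤ ((SimpleGraph.mulCayley (QuotientGroup.mk ''
          (S : Set G) : Set (G ⧸ congr (I k)))).diam : ℝ) ∧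
        ((SimpleGraph.mulCayley (QuotientGroup.mk '' (S : Set G) :
          Set (G ⧸ congr (I k)))).diam : ℝ) ≤ C * f (Nat.card (G ⧸ congr (I k))) := by
  have htop : Filter.Tendsto (fun n : ℕ => κ * Real.log n) Filter.atTop Filter.atTop :=
    (Real.tendsto_log_atTop.comp tendsto_natCast_atTop_atTop).const_mul_atTop hκ
  obtain ⟨n₀, hn₀⟩ := Filter.eventually_atTop.1
    (hlog.and ((htop.eventually_ge_atTop 2).and (Filter.eventually_ge_atTop n₁)))
  obtain ⟨a', b', ha', hb', hanti'⟩ := exists_base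
  obtain ⟨a, ha⟩ : ∃ a : ℕ → ℕ, ∀ k, a k = a' (k + n₀) := ⟨_, fun _ => rfl⟩
  obtain ⟨b, hb⟩ : ∃ b : ℕ → ℕ, ∀ k, b k = b' (k + n₀) := ⟨_, fun _ => rfl⟩
  have ha1 : ∀ k, k + n₀ < a k := fun k => ha k ▸ ha' _
  have hb1 : ∀ k, k + 2 ≤ b k := fun k => by have := hb' (k + n₀); rw [hb]; omega
  have ha0 : ∀ k, 0 < a k := fun k => lt_of_le_of_lt (Nat.zero_le _) (ha1 k)
  have hb0 : ∀ k, 0 < b k := fun k => by have := hb1 k; omega
  have hanti : Antitone fun k => B (a k) (b k) := by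
    intro k l hkl
    simp only [ha, hb]
    exact hanti' (Nat.add_le_add_right hkl n₀)
  obtain ⟨c, hc⟩ : ∃ c : ℕ → ℕ, ∀ k, c k = Nat.card (G ⧸ congr (B (a k) (b k))) :=
    ⟨_, fun _ => rfl⟩
  have hcm : Monotone c := by
    intro k l hkl
    have := finite_quot_B (ha0 l) (hb0 l)
    rw [hc, hc]
    exact card_quot_antitone (hanti hkl)
  have hc1 : ∀ k, (2 ^ b k - 1) ^ a k ≤ c k := by
    intro k
    have := finite_quot_B (ha0 k) (hb0 k)
    rw [hc]
    exact (pow_le_card_B (ha0 k) (by have := hb1 k; omega)).trans (le_card_quot _)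
  have h4 : ∀ k, 4 ≤ 2 ^ b k := fun k =>
    (Nat.pow_le_pow_right (by norm_num) (by have := hb1 k; omega) : 2 ^ 2 ≤ 2 ^ b k)
  have hc2 : ∀ k, n₀ < c k := by
    intro k
    have h1 : 2 ^ a k ≤ (2 ^ b k - 1) ^ a k := Nat.pow_le_pow_left (by have := h4 k; omega) _
    have h2 := Nat.lt_two_pow_self (n := a k)
    have h3 := hc1 k
    have h5 := ha1 k
    omega
  have hc0 : ∀ k, 0 < c k := fun k => lt_of_le_of_lt (Nat.zero_le _) (hc2 k)
  have hc3 : ∀ k, 2 ^ (a k * b k) ≤ c k ^ 2 := by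
    intro k
    have h1 : 2 ^ b k ≤ (2 ^ b k - 1) ^ 2 := by
      obtain ⟨x, hx⟩ : ∃ x, 2 ^ b k = x + 4 := ⟨2 ^ b k - 4, by have := h4 k; omega⟩
      rw [hx, show x + 4 - 1 = x + 3 by omega]
      nlinarith
    calc 2 ^ (a k * b k) = (2 ^ b k) ^ a k := by rw [← pow_mul, mul_comm]
      _ ≤ ((2 ^ b k - 1) ^ 2) ^ a k := Nat.pow_le_pow_left h1 _
      _ = ((2 ^ b k - 1) ^ a k) ^ 2 := by rw [← pow_mul, ← pow_mul, mul_comm]
      _ ≤ c k ^ 2 := Nat.pow_le_pow_left (hc1 k) _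
  have hex : ∀ k, ∃ r : ℕ, f (c k * 2 ^ (r + 2)) < 2 ^ (r + 2) := by
    intro k
    have hck : (0 : ℝ) < c k := by exact_mod_cast hc0 k
    obtain ⟨r, hr⟩ := Filter.eventually_atTop.1
      (ho.eventually (gt_mem_nhds (one_div_pos.2 hck)))
    refine ⟨r, ?_⟩
    have h1 := hr (c k * 2 ^ (r + 2)) (by
      have h2 := Nat.lt_two_pow_self (n := r + 2)
      have h3 := Nat.le_mul_of_pos_left (2 ^ (r + 2)) (hc0 k)
      omega)
    rw [Nat.cast_mul, div_lt_div_iff₀ (by positivity) hck, one_mul, mul_comm (c k : ℝ)] at h1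
    exact_mod_cast lt_of_mul_lt_mul_right h1 hck.le
  classical
  obtain ⟨r, hr⟩ : ∃ r : ℕ → ℕ, ∀ k, r k = Nat.find (hex k) := ⟨_, fun _ => rfl⟩
  have hrm : Monotone r := by
    intro k l hkl
    rw [hr, hr]
    exact Nat.find_min' _ (lt_of_le_of_lt (hf (Nat.mul_le_mul_right _ (hcm hkl)))
      (Nat.find_spec (hex l)))
  have hup : ∀ k, f (c k * (2 * 2 ^ r k)) ≤ 4 * 2 ^ r k := by
    intro k
    have h1 := Nat.find_spec (hex k)
    rw [← hr] at h1
    have h2 : c k * (2 * 2 ^ r k) ≤ c k * 2 ^ (r k + 2) :=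
      Nat.mul_le_mul_left _ (by rw [pow_add]; omega)
    calc f (c k * (2 * 2 ^ r k)) ≤ f (c k * 2 ^ (r k + 2)) := hf h2
      _ ≤ 2 ^ (r k + 2) := h1.le
      _ = 4 * 2 ^ r k := by ring
  have hlow : ∀ k, 2 * 2 ^ r k ≤ f (c k * (2 * 2 ^ r k)) := by
    intro k
    rcases Nat.eq_zero_or_eq_succ_pred (r k) with h | h
    · have h1 := hn₀ (c k * (2 * 2 ^ r k)) (by have := hc2 k; rw [h]; omega)
      rw [h] at h1 ⊢
      simpa using h1.2.1.trans h1.1
    · have h1 := Nat.find_min (hex k) (m := (r k).pred) (by rw [← hr]; omega)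
      rw [not_lt, show (r k).pred + 2 = r k + 1 by omega, pow_succ', pow_succ'] at h1
      exact h1
  have hcard : ∀ k, Nat.card (G ⧸ congr (BN (a k) (b k) (2 * 2 ^ r k))) =
      c k * (2 * 2 ^ r k) := fun k => by rw [card_BN (by positivity), hc]
  have hle : ∀ k, c k ≤ c k * (2 * 2 ^ r k) := fun k => Nat.le_mul_of_pos_right _ (by positivity)
  refine ⟨fun k => BN (a k) (b k) (2 * 2 ^ r k), ⟨?_, fun k => finite_BN (ha0 k) (hb0 k)
    (by positivity), ?_⟩, fun k => ?_, fun S hS => ?_⟩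
  · intro k l hkl P hP
    rw [mem_BN] at hP ⊢
    refine ⟨hanti hkl hP.1, dvd_trans ?_ hP.2⟩
    exact_mod_cast Nat.mul_dvd_mul_left 2 (pow_dvd_pow 2 (hrm hkl))
  · apply iInf_congr_eq_bot
    rw [eq_bot_iff, ← iInf_B (a := a) (b := b) (fun k => by have := ha1 k; omega) hb1]
    exact iInf_mono fun k P hP => (mem_BN.1 hP).1
  · rw [hcard]
    exact (hn₀ _ ((hc2 k).le.trans (hle k))).2.2
  · obtain ⟨L, hL0, hL⟩ : ∃ L : ℕ, 0 < L ∧ ∀ s ∈ (S : Set G), |tot s| ≤ L := by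
      refine ⟨S.sup (fun s => (tot s).natAbs) + 1, by omega, fun s hs => ?_⟩
      have : (tot s).natAbs ≤ S.sup (fun s => (tot s).natAbs) :=
        Finset.le_sup (f := fun s => (tot s).natAbs) hs
      rw [Int.abs_eq_natAbs]
      omega
    have hLr : (0 : ℝ) < L := by exact_mod_cast hL0
    obtain ⟨L1, h1⟩ := exists_W hS (elt 1 0)
    obtain ⟨L2, h2⟩ := exists_W hS (elt 0 1)
    have ht := h1.mono (le_max_left L1 L2)
    have hs := h2.mono (le_max_right L1 L2)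
    generalize max L1 L2 = M at ht hs
    have hlog2 : 0 < Real.log 2 := Real.log_pos (by norm_num)
    refine ⟨1 / (4 * L), 5 * (2 / (κ * Real.log 2)) * M + 3 * M, by positivity, fun k => ?_⟩
    have h3 := le_diam_BN hS (h := 2 ^ r k) (ha0 k) (hb0 k) (by positivity) hL
    have h5 := diam_BN_le (N := 2 * 2 ^ r k) (ha0 k) (hb0 k) (by positivity) ht hs
    simp only [hcard]
    generalize (SimpleGraph.mulCayley (QuotientGroup.mk '' (S : Set G) :
      Set (G ⧸ congr (BN (a k) (b k) (2 * 2 ^ r k))))).diam = D at h3 h5 ⊢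
    have h6 : (2 : ℝ) ^ r k ≤ D * L := by exact_mod_cast h3
    have h7 : (D : ℝ) ≤ 5 * ((a k * b k : ℕ) : ℝ) * M + 3 * (2 * 2 ^ r k) * M := by
      exact_mod_cast h5
    have h8 := hup k
    have h9 := hlow k
    have h10 : ((a k * b k : ℕ) : ℝ) * Real.log 2 ≤ 2 * Real.log (c k) := by
      have h11 : (2 : ℝ) ^ (a k * b k) ≤ (c k : ℝ) ^ 2 := by exact_mod_cast hc3 k
      have h12 := Real.log_le_log (by positivity) h11
      rw [Real.log_pow, Real.log_pow] at h12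
      exact_mod_cast h12
    have h13 : κ * Real.log (c k) ≤ f (c k * (2 * 2 ^ r k)) :=
      (hn₀ _ (hc2 k).le).1.trans (hf (hle k))
    generalize f (c k * (2 * 2 ^ r k)) = F at h8 h9 h13 ⊢
    have h14 : ((a k * b k : ℕ) : ℝ) ≤ 2 / (κ * Real.log 2) * F := by
      rw [div_mul_eq_mul_div, le_div_iff₀ (by positivity)]
      nlinarith [mul_le_mul_of_nonneg_left h10 hκ.le]
    have hM : (0 : ℝ) ≤ M := by positivity
    constructor
    · rw [one_div, inv_mul_le_iff₀ (by positivity)]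
      linarith
    · nlinarith [mul_le_mul_of_nonneg_right h14 hM, mul_le_mul_of_nonneg_right h9 hM]

end Pool.Agent.P.MP_625351_al
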