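import Pool.Agent.P.MP_625351_al.Basic

namespace Pool.Agent.P.MP_625351_al

open LaurentPolynomial

instance fact3 : Fact (Nat.Prime 3) := ⟨Nat.prime_three⟩

lemma uncountable_padic : Uncountable ℤ_[3] := by
  rw [← not_countable_iff]
  intro hc
  obtain ⟨x, hx⟩ := nonempty_interior_of_iUnion_of_closed (X := ℤ_[3]) (f := fun x : ℤ_[3] => {x})
    (fun x => isClosed_singleton) (by ext; simp)
  obtain ⟨y, hy⟩ := hx
  have hyx : y = x := by simpa using interior_subset hy
  subst hyx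
  have hn : ({y} : Set ℤ_[3]) ∈ nhds y := mem_interior_iff_mem_nhds.1 hy
  have ht : Filter.Tendsto (fun n : ℕ => y + (3 : ℤ_[3]) ^ n) Filter.atTop (nhds (y + 0)) := by
    apply Filter.Tendsto.const_add
    apply tendsto_pow_atTop_nhds_zero_of_norm_lt_one
    have := PadicInt.norm_p (p := 3)
    simp only [Nat.cast_ofNat] at this
    rw [this]; norm_num
  rw [add_zero] at ht
  obtain ⟨n, hn⟩ := (ht.eventually hn).exists
  have h2 : y + (3 : ℤ_[3]) ^ n = y := hn
  have h3 : (3 : ℤ_[3]) ^ n = 0 := by linear_combination h2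
  exact pow_ne_zero n (by norm_num) h3

lemma exists_transcendental : ∃ t : ℤ_[3], Transcendental ℤ (4 + 9 * t) := by
  by_contra h
  push Not at h
  have hinj : Function.Injective (fun t : ℤ_[3] => 4 + 9 * t) := by
    intro a b hab
    simpa using hab
  have hc := (Algebraic.countable ℤ ℤ_[3]).preimage_of_injOn (f := fun t : ℤ_[3] => 4 + 9 * t)
    hinj.injOn
  have hu : (fun t : ℤ_[3] => 4 + 9 * t) ⁻¹' {x | IsAlgebraic ℤ x} = Set.univ := by
    ext t
    simpa [Transcendental] using h t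
  rw [hu, Set.countable_univ_iff] at hc
  exact not_countable_iff.2 uncountable_padic hc

lemma isUnit_four_add (t : ℤ_[3]) : IsUnit (4 + 9 * t) := by
  have h : (4 + 9 * t : ℤ_[3]) = 1 - (-(3 * (1 + 3 * t))) := by ring
  rw [h]
  apply IsLocalRing.isUnit_one_sub_self_of_mem_nonunits
  rw [← IsLocalRing.mem_maximalIdeal, PadicInt.maximalIdeal_eq_span_p]
  apply neg_mem
  apply Ideal.mul_mem_right
  exact Ideal.subset_span (by simp)

lemma orderOf_four_add (t : ℤ_[3]) (k : ℕ) :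
    orderOf (PadicInt.toZModPow (k + 1) (4 + 9 * t)) = 3 ^ k := by
  obtain ⟨b, hb⟩ := ZMod.intCast_surjective (PadicInt.toZModPow (k + 1) t)
  have h := ZMod.orderOf_one_add_mul_prime Nat.prime_three (by norm_num) (1 + 3 * b)
    (by omega) k
  convert h using 2
  rw [map_add, map_mul, ← hb, map_ofNat, map_ofNat]
  push_cast
  ring

lemma eval_injective {u : ℤ_[3]ˣ} (hu : Transcendental ℤ (u : ℤ_[3])) :
    Function.Injective (eval₂ (Int.castRingHom ℤ_[3]) u) := by
  rw [injective_iff_map_eq_zero]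
  intro f hf
  obtain ⟨n, f', hf'⟩ := exists_T_pow f
  have h1 : eval₂ (Int.castRingHom ℤ_[3]) u (Polynomial.toLaurent f') = 0 := by
    rw [hf', map_mul, hf, zero_mul]
  rw [eval₂_toLaurent] at h1
  have h2 : f' = 0 := by
    by_contra h0
    exact hu ⟨f', h0, h1⟩
  rw [h2, map_zero] at hf'
  exact (isUnit_T (n : ℤ)).mul_left_eq_zero.1 hf'.symm

theorem q1 : ∃ I : ℕ → Ideal (LaurentPolynomial ℤ), IsCongruenceFiltration I ∧
    ∀ S : Finset G, Subgroup.closure (S : Set G) = ⊤ → HasD S I (1 / 2) := by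
  obtain ⟨t, ht⟩ := exists_transcendental
  obtain ⟨u, hu⟩ := isUnit_four_add t
  let ψ : LaurentPolynomial ℤ →+* ℤ_[3] := eval₂ (Int.castRingHom ℤ_[3]) u
  have hψ : Function.Injective ψ := eval_injective (by rw [hu]; exact ht)
  let φ : ∀ k : ℕ, LaurentPolynomial ℤ →+* ZMod (3 ^ (k + 1 + 1)) :=
    fun k => (PadicInt.toZModPow (k + 1 + 1)).comp ψ
  have hmem : ∀ k P, P ∈ RingHom.ker (φ k) ↔ (3 : ℤ_[3]) ^ (k + 1 + 1) ∣ ψ P := by
    intro k P
    rw [RingHom.mem_ker, RingHom.comp_apply, ← RingHom.mem_ker, PadicInt.ker_toZModPow,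
      Ideal.mem_span_singleton]
    simp
  have hfin : ∀ k, Finite (LaurentPolynomial ℤ ⧸ RingHom.ker (φ k)) := fun k =>
    Finite.of_injective _ (RingHom.kerLift_injective (φ k))
  have hcard : ∀ k, Nat.card (LaurentPolynomial ℤ ⧸ RingHom.ker (φ k)) ≤ 3 ^ (k + 1 + 1) := by
    intro k
    have := Nat.card_le_card_of_injective _ (RingHom.kerLift_injective (φ k))
    rwa [Nat.card_zmod] at this
  refine ⟨fun k => RingHom.ker (φ k), ⟨?_, hfin, ?_⟩, ?_⟩
  · intro k l hkl P hP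
    simp only [hmem] at hP ⊢
    exact (pow_dvd_pow _ (by omega)).trans hP
  · apply iInf_congr_eq_bot
    rw [eq_bot_iff]
    intro P hP
    rw [Ideal.mem_iInf] at hP
    rw [Ideal.mem_bot]
    apply hψ
    rw [map_zero, ← PadicInt.ext_of_toZModPow]
    intro n
    rw [map_zero, ← RingHom.mem_ker, PadicInt.ker_toZModPow, Ideal.mem_span_singleton]
    have := (hmem n P).1 (hP n)
    simp only [Nat.cast_ofNat]
    exact (pow_dvd_pow _ (by omega)).trans this
  · intro S hS
    obtain ⟨L, hL0, hL⟩ : ∃ L : ℕ, 0 < L ∧ ∀ s ∈ (S : Set G), |deg s| ≤ L := by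
      refine ⟨S.sup (fun s => (deg s).natAbs) + 1, by omega, fun s hs => ?_⟩
      have : (deg s).natAbs ≤ S.sup (fun s => (deg s).natAbs) :=
        Finset.le_sup (f := fun s => (deg s).natAbs) hs
      rw [Int.abs_eq_natAbs]
      omega
    refine ⟨1 / (9 * L), by positivity, fun k => ?_⟩
    have := hfin k
    have := finite_quot (RingHom.ker (φ k))
    set D := (SimpleGraph.mulCayley (QuotientGroup.mk '' (S : Set G) :
      Set (G ⧸ congr (RingHom.ker (φ k))))).diam with hD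
    have hW := W_diam (closure_image_mk hS (RingHom.ker (φ k)))
      (QuotientGroup.mk (elt (3 ^ k) 0))
    obtain ⟨g, hg, hgx⟩ := W.lift (QuotientGroup.mk' (congr (RingHom.ker (φ k)))) hW
    have hb := hg.abs_le deg deg_mul L hL
    obtain ⟨n, P, rfl⟩ := exists_elt g
    rw [deg_elt] at hb
    have hn := ((mk_elt_eq_iff _ _ _ _ _).1 hgx).1
    -- the order of `u` modulo `3^(k+2)` is `3^(k+1)`
    let v : (ZMod (3 ^ (k + 1 + 1)))ˣ := Units.map (PadicInt.toZModPow (k + 1 + 1)).toMonoidHom u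
    have hv : orderOf v = 3 ^ (k + 1) := by
      rw [← orderOf_units, ← orderOf_four_add t (k + 1), ← hu]; rfl
    have hφT : ∀ m : ℤ, φ k (T m) = ((v ^ m : (ZMod (3 ^ (k + 1 + 1)))ˣ) : ZMod _) := by
      intro m
      rw [RingHom.comp_apply, eval₂_T, ← map_zpow]; rfl
    rw [RingHom.mem_ker, map_sub, sub_eq_zero, hφT, hφT, Units.val_inj,
      zpow_eq_zpow_iff_modEq, hv] at hn
    have hlow : (3 : ℤ) ^ k ≤ |n| := by
      obtain ⟨c, hc⟩ := hn.dvd
      have hc' : n = 3 ^ k * (1 - 3 * c) := by push_cast at hc; linear_combination -hc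
      have h1 : 1 ≤ |1 - 3 * c| := Int.one_le_abs (by omega)
      rw [hc', abs_mul, abs_of_pos (by positivity : (0 : ℤ) < 3 ^ k)]
      exact le_mul_of_one_le_right (by positivity) h1
    have hDL : (3 : ℝ) ^ k ≤ D * L := by exact_mod_cast hlow.trans hb
    have hc1 : (Nat.card (G ⧸ congr (RingHom.ker (φ k))) : ℝ) ≤ ((3 : ℝ) ^ (k + 1 + 1)) ^ 2 := by
      have h1 := card_quot_le (RingHom.ker (φ k))
      have h2 := Nat.pow_le_pow_left (hcard k) 2
      exact_mod_cast h1.trans h2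
    have hc2 : (Nat.card (G ⧸ congr (RingHom.ker (φ k))) : ℝ) ^ (1 / 2 : ℝ) ≤ 3 ^ (k + 1 + 1) := by
      rw [← Real.sqrt_eq_rpow]
      exact Real.sqrt_le_iff.2 ⟨by positivity, hc1⟩
    have hLr : (0 : ℝ) < L := by exact_mod_cast hL0
    calc 1 / (9 * (L : ℝ)) * (Nat.card (G ⧸ congr (RingHom.ker (φ k))) : ℝ) ^ (1 / 2 : ℝ)
        ≤ 1 / (9 * L) * 3 ^ (k + 1 + 1) := by gcongr
      _ = 3 ^ k / L := by field_simp; ring
      _ ≤ D := by rw [div_le_iff₀ hLr]; exact hDL

end Pool.Agent.P.MP_625351_al
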