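import Pool.Agent.P.MP_625351_al.Basic

namespace Pool.Agent.P.MP_625351_al

open LaurentPolynomial

/-- The ideal `(m, X^m - 1)`. -/
noncomputable def J (m : ℕ) : Ideal (LaurentPolynomial ℤ) :=
  Ideal.span {(m : LaurentPolynomial ℤ), T m - 1}

lemma natCast_mem_J (m : ℕ) : (m : LaurentPolynomial ℤ) ∈ J m := Ideal.subset_span (by simp)

lemma T_sub_one_mem_J (m : ℕ) : (T m - 1 : LaurentPolynomial ℤ) ∈ J m :=
  Ideal.subset_span (by simp)

lemma T_mul_sub_one_mem_J (m : ℕ) (c : ℤ) : (T (m * c) - 1 : LaurentPolynomial ℤ) ∈ J m := by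
  induction c using Int.induction_on with
  | zero => simp
  | succ c ih =>
    have : (T (m * ((c : ℤ) + 1)) - 1 : LaurentPolynomial ℤ) =
        T m * (T (m * c) - 1) + (T m - 1) := by
      rw [mul_add, mul_one, T_add]; ring
    rw [this]
    exact add_mem (Ideal.mul_mem_left _ _ ih) (T_sub_one_mem_J m)
  | pred c ih =>
    have h1 : (T (-(m : ℤ)) * T m : LaurentPolynomial ℤ) = 1 := by rw [← T_add]; simp
    have : (T (m * (-(c : ℤ) - 1)) - 1 : LaurentPolynomial ℤ) =
        T (-(m : ℤ)) * (T (m * -(c : ℤ)) - 1) - T (-(m : ℤ)) * (T m - 1) := by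
      rw [mul_sub (m : ℤ), mul_one, T_sub]
      linear_combination h1
    rw [this]
    exact sub_mem (Ideal.mul_mem_left _ _ ih) (Ideal.mul_mem_left _ _ (T_sub_one_mem_J m))

lemma T_sub_T_emod_mem_J (m : ℕ) (n : ℤ) : (T n - T (n % m) : LaurentPolynomial ℤ) ∈ J m := by
  have : (T n - T (n % m) : LaurentPolynomial ℤ) = T (n % m) * (T (m * (n / m)) - 1) := by
    rw [mul_sub, ← T_add, mul_one, Int.emod_add_mul_ediv]
  rw [this]
  exact Ideal.mul_mem_left _ _ (T_mul_sub_one_mem_J m _)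

lemma exists_normal_form' {m : ℕ} (hm : 0 < m) (P : LaurentPolynomial ℤ) :
    ∃ c : ℕ → ℤ, P - ∑ j ∈ Finset.range m, (c j : LaurentPolynomial ℤ) * T j ∈ J m := by
  induction P using LaurentPolynomial.induction_on' with
  | add p q hp hq =>
    obtain ⟨c, hc⟩ := hp
    obtain ⟨d, hd⟩ := hq
    refine ⟨c + d, ?_⟩
    convert add_mem hc hd using 1
    simp only [Pi.add_apply, Int.cast_add, add_mul, Finset.sum_add_distrib]
    ring
  | C_mul_T n a =>
    have h0 : 0 ≤ n % m := Int.emod_nonneg _ (by omega)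
    have h1 : n % m < m := Int.emod_lt_of_pos _ (by omega)
    refine ⟨fun j => if j = (n % m).toNat then a else 0, ?_⟩
    rw [Finset.sum_eq_single (n % m).toNat]
    · simp only [if_true, Int.toNat_of_nonneg h0]
      have : (C a : LaurentPolynomial ℤ) = (a : LaurentPolynomial ℤ) := by simp
      rw [this, ← mul_sub]
      exact Ideal.mul_mem_left _ _ (T_sub_T_emod_mem_J m n)
    · intro b _ hb
      simp [hb]
    · intro h
      exfalso; apply h
      rw [Finset.mem_range]; omega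

lemma exists_normal_form {m : ℕ} (hm : 0 < m) (P : LaurentPolynomial ℤ) :
    ∃ c : ℕ → ℕ, (∀ j, c j < m) ∧
      P - ∑ j ∈ Finset.range m, (c j : LaurentPolynomial ℤ) * T j ∈ J m := by
  obtain ⟨c, hc⟩ := exists_normal_form' hm P
  refine ⟨fun j => (c j % m).toNat, fun j => ?_, ?_⟩
  · have h0 : 0 ≤ c j % m := Int.emod_nonneg _ (by omega)
    have h1 : c j % m < m := Int.emod_lt_of_pos _ (by omega)
    show (c j % m).toNat < m
    omega
  · have : ∑ j ∈ Finset.range m, (c j : LaurentPolynomial ℤ) * T j -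
        ∑ j ∈ Finset.range m, (((c j % m).toNat : ℕ) : LaurentPolynomial ℤ) * T j ∈ J m := by
      rw [← Finset.sum_sub_distrib]
      apply Ideal.sum_mem
      intro j _
      rw [← sub_mul]
      apply Ideal.mul_mem_right
      have h0 : 0 ≤ c j % m := Int.emod_nonneg _ (by omega)
      have h2 : (((c j % m).toNat : ℕ) : LaurentPolynomial ℤ) = ((c j % m : ℤ) : _) := by
        rw [← Int.cast_natCast, Int.toNat_of_nonneg h0]
      have h3 : c j - c j % m = m * (c j / m) := by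
        have := Int.emod_add_mul_ediv (c j) m
        linarith
      rw [h2, ← Int.cast_sub, h3, Int.cast_mul, Int.cast_natCast]
      exact Ideal.mul_mem_right _ _ (natCast_mem_J m)
    convert add_mem hc this using 1
    ring

lemma finite_quot_J {m : ℕ} (hm : 0 < m) : Finite (LaurentPolynomial ℤ ⧸ J m) := by
  refine Finite.of_surjective (fun c : Fin m → Fin m => Ideal.Quotient.mk (J m)
    (∑ j : Fin m, ((c j : ℕ) : LaurentPolynomial ℤ) * T (j : ℕ))) ?_
  intro x
  obtain ⟨P, rfl⟩ := Ideal.Quotient.mk_surjective x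
  obtain ⟨c, hc, hP⟩ := exists_normal_form hm P
  refine ⟨fun j => ⟨c j, hc j⟩, ?_⟩
  symm
  rw [Ideal.Quotient.eq]
  rwa [Finset.sum_range] at hP

lemma J_two_pow_antitone : Antitone fun k : ℕ => J (2 ^ k) := by
  apply antitone_nat_of_succ_le
  intro k
  rw [J, Ideal.span_le]
  rintro x (rfl | rfl)
  · rw [pow_succ, Nat.cast_mul]
    exact Ideal.mul_mem_right _ _ (natCast_mem_J _)
  · rw [pow_succ, Nat.cast_mul]
    exact T_mul_sub_one_mem_J _ _

/-- The maximal ideal `(2, X - 1)`. -/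
noncomputable def M : Ideal (LaurentPolynomial ℤ) := Ideal.span {2, T 1 - 1}

lemma M_ne_top : M ≠ ⊤ := by
  intro h
  have h1 : M ≤ RingHom.ker (eval₂ (Int.castRingHom (ZMod 2)) 1) := by
    rw [M, Ideal.span_le]
    rintro x (rfl | rfl)
    · simp only [SetLike.mem_coe, RingHom.mem_ker, map_ofNat]; rfl
    · simp only [SetLike.mem_coe, RingHom.mem_ker, map_sub, map_one, eval₂_T]; simp
  rw [h] at h1
  have := h1 (Submodule.mem_top (x := (1 : LaurentPolynomial ℤ)))
  simp at this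

lemma J_le_pow (k : ℕ) : J (2 ^ k) ≤ M ^ k := by
  have h2 : (2 : LaurentPolynomial ℤ) ∈ M := Ideal.subset_span (by simp)
  have hT : ∀ k : ℕ, (T ((2 ^ k : ℕ) : ℤ) - 1 : LaurentPolynomial ℤ) ∈ M ^ (k + 1) := by
    intro k
    induction k with
    | zero =>
      have : (T 1 - 1 : LaurentPolynomial ℤ) ∈ M := Ideal.subset_span (by simp)
      simpa using this
    | succ k ih =>
      have : (T ((2 ^ (k + 1) : ℕ) : ℤ) - 1 : LaurentPolynomial ℤ) =
          (T ((2 ^ k : ℕ) : ℤ) - 1) * ((T ((2 ^ k : ℕ) : ℤ) - 1) + 2) := by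
        rw [pow_succ, mul_two, Nat.cast_add, T_add]; ring
      rw [this, pow_succ M (k + 1)]
      exact Ideal.mul_mem_mul ih (add_mem (Ideal.pow_le_self (by omega) ih) h2)
  rw [J, Ideal.span_le]
  rintro x (rfl | rfl)
  · simpa using Ideal.pow_mem_pow h2 k
  · exact Ideal.pow_le_pow_right (Nat.le_succ k) (hT k)

lemma iInf_J : ⨅ k : ℕ, J (2 ^ k) = ⊥ := by
  have : IsNoetherianRing (LaurentPolynomial ℤ) :=
    IsLocalization.isNoetherianRing (Submonoid.powers (Polynomial.X : Polynomial ℤ)) _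
      inferInstance
  rw [eq_bot_iff, ← Ideal.iInf_pow_eq_bot_of_isDomain M M_ne_top]
  exact iInf_mono J_le_pow

lemma two_pow_le_card {m : ℕ} (hm : 0 < m) (h2 : 2 ∣ m) :
    2 ^ m ≤ Nat.card (LaurentPolynomial ℤ ⧸ J m) := by
  have := finite_quot_J hm
  let f : Polynomial (ZMod 2) := Polynomial.X ^ m - Polynomial.C 1
  have hf : f.Monic := Polynomial.monic_X_pow_sub_C 1 hm.ne'
  have hdeg : f.natDegree = m := Polynomial.natDegree_X_pow_sub_C
  have hroot : AdjoinRoot.root f ^ m = 1 := by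
    have := AdjoinRoot.mk_self (f := f)
    simp only [f, map_sub, map_pow, AdjoinRoot.mk_X, map_one] at this
    exact sub_eq_zero.1 this
  let u : (AdjoinRoot f)ˣ := Units.ofPowEqOne _ m hroot hm.ne'
  let φ : LaurentPolynomial ℤ →+* AdjoinRoot f := eval₂ (Int.castRingHom _) u
  have hu : (u : AdjoinRoot f) = AdjoinRoot.root f := rfl
  have hker : J m ≤ RingHom.ker φ := by
    rw [J, Ideal.span_le]
    rintro x (rfl | rfl)
    · obtain ⟨c, rfl⟩ := h2
      have : ((2 : ℕ) : AdjoinRoot f) = 0 := by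
        rw [← map_natCast (AdjoinRoot.of f)]
        have : ((2 : ℕ) : ZMod 2) = 0 := rfl
        rw [this, map_zero]
      simp only [SetLike.mem_coe, RingHom.mem_ker, map_natCast]
      rw [Nat.cast_mul, this, zero_mul]
    · simp only [SetLike.mem_coe, RingHom.mem_ker, map_sub, map_one, φ, eval₂_T_n]
      rw [hu, hroot, sub_self]
  have hsurj : Function.Surjective φ := by
    intro x
    obtain ⟨p, rfl⟩ := AdjoinRoot.mk_surjective x
    obtain ⟨q, rfl⟩ := Polynomial.map_surjective (Int.castRingHom (ZMod 2))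
      (ZMod.ringHom_surjective _) p
    refine ⟨Polynomial.toLaurent q, ?_⟩
    simp only [φ, eval₂_toLaurent]
    rw [← AdjoinRoot.aeval_eq, Polynomial.aeval_def, Polynomial.eval₂_map, hu]
    congr 1
  have hsurj' : Function.Surjective (Ideal.Quotient.lift (J m) φ (fun a ha => hker ha)) := by
    intro x
    obtain ⟨P, rfl⟩ := hsurj x
    exact ⟨Ideal.Quotient.mk _ P, rfl⟩
  have hc := Nat.card_le_card_of_surjective _ hsurj'
  have hcard : Nat.card (AdjoinRoot f) = 2 ^ m := by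
    rw [Nat.card_congr (AdjoinRoot.powerBasis' hf).basis.equivFun.toEquiv, Nat.card_fun,
      Nat.card_zmod, Nat.card_eq_fintype_card, Fintype.card_fin, AdjoinRoot.powerBasis'_dim, hdeg]
  rwa [hcard] at hc

lemma elt_one_pow (j : ℕ) : elt 1 0 ^ j = elt j 0 := by
  induction j with
  | zero => simp [elt_zero]
  | succ j ih => rw [pow_succ, ih, elt_mul]; simp

lemma elt_zero_pow (c : ℕ) : elt 0 1 ^ c = elt 0 c := by
  induction c with
  | zero => simp [elt_zero]
  | succ j ih => rw [pow_succ, ih, elt_mul]; simp [add_comm]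

lemma elt_conj (j c : ℕ) : elt 0 ((c : LaurentPolynomial ℤ) * T j) =
    elt 1 0 ^ j * elt 0 1 ^ c * (elt 1 0 ^ j)⁻¹ := by
  rw [eq_mul_inv_iff_mul_eq, elt_one_pow, elt_zero_pow, elt_mul, elt_mul, mul_zero, zero_add,
    zero_add, add_zero, add_zero, mul_comm]

lemma W_sum {S : Set G} {L m : ℕ} (ht : W S L (elt 1 0)) (ha : W S L (elt 0 1)) (c : ℕ → ℕ)
    (hc : ∀ j, c j < m) (r : ℕ) (hr : r ≤ m) :
    W S (r * (3 * m * L)) (elt 0 (∑ j ∈ Finset.range r, (c j : LaurentPolynomial ℤ) * T j)) := by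
  induction r with
  | zero => simpa [elt_zero] using W.one S 0
  | succ r ih =>
    have h1 : W S (3 * m * L) (elt 0 ((c r : LaurentPolynomial ℤ) * T r)) := by
      rw [elt_conj]
      refine (((ht.pow r).mul (ha.pow (c r))).mul (ht.pow r).inv).mono ?_
      have := hc r
      nlinarith [Nat.mul_le_mul_right L (show r ≤ m by omega),
        Nat.mul_le_mul_right L (show c r ≤ m by omega)]
    have h2 := h1.mul (ih (by omega))
    rw [elt_mul] at h2
    rw [Finset.sum_range_succ]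
    simp only [add_zero, T_zero, one_mul] at h2
    exact h2.mono (le_of_eq (by ring))

lemma diam_le {S : Set G} {L m : ℕ} (hm : 0 < m) (ht : W S L (elt 1 0)) (ha : W S L (elt 0 1)) :
    (SimpleGraph.mulCayley (QuotientGroup.mk '' S : Set (G ⧸ congr (J m)))).diam ≤
      4 * m ^ 2 * L := by
  apply diam_le_of_W
  intro x
  obtain ⟨g, rfl⟩ := QuotientGroup.mk_surjective x
  obtain ⟨n, P, rfl⟩ := exists_elt g
  obtain ⟨c, hc, hP⟩ := exists_normal_form hm P
  have h0 : 0 ≤ n % m := Int.emod_nonneg _ (by omega)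
  have h1 : n % m < m := Int.emod_lt_of_pos _ (by omega)
  have h2 := (W_sum ht ha c hc m le_rfl).mul (ht.pow (n % m).toNat)
  rw [elt_one_pow, elt_mul, Int.toNat_of_nonneg h0] at h2
  simp only [zero_add, mul_zero] at h2
  have h3 := h2.map (QuotientGroup.mk' (congr (J m)))
  have h4 : (QuotientGroup.mk (elt n P) : G ⧸ congr (J m)) = QuotientGroup.mk (elt (n % m)
      (∑ j ∈ Finset.range m, (c j : LaurentPolynomial ℤ) * T j)) :=
    (mk_elt_eq_iff _ _ _ _ _).2 ⟨T_sub_T_emod_mem_J m n, hP⟩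
  rw [h4]
  refine W.mono h3 ?_
  have h5 : (n % m).toNat ≤ m * m := by nlinarith [show (n % m).toNat ≤ m by omega]
  nlinarith [Nat.mul_le_mul_right L h5]

theorem q2 : ∃ I : ℕ → Ideal (LaurentPolynomial ℤ), IsCongruenceFiltration I ∧
    ∀ S : Finset G, Subgroup.closure (S : Set G) = ⊤ → ∀ α : ℝ, 0 < α →
      ∀ φ : ℕ → ℕ, StrictMono φ → ¬ HasD S (fun k => I (φ k)) α := by
  refine ⟨fun k => J (2 ^ k), ⟨J_two_pow_antitone, fun k => finite_quot_J (by positivity),
    iInf_congr_eq_bot iInf_J⟩, ?_⟩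
  rintro S hS α hα φ hφ ⟨K, hK, h⟩
  obtain ⟨L1, h1⟩ := exists_W hS (elt 1 0)
  obtain ⟨L2, h2⟩ := exists_W hS (elt 0 1)
  have ht := h1.mono (le_max_left L1 L2)
  have ha := h2.mono (le_max_right L1 L2)
  set L := max L1 L2
  have hr : (1 : ℝ) < 2 ^ α := Real.one_lt_rpow (by norm_num) hα
  have hlim := (tendsto_pow_const_div_const_pow_of_one_lt 2 hr).comp
    (tendsto_pow_atTop_atTop_of_one_lt (α := ℕ) (r := 2) (by norm_num))
  have hpos : (0 : ℝ) < K / (4 * L + 1) := by positivity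
  obtain ⟨k₀, hk, hk1⟩ := (hφ.tendsto_atTop.eventually ((hlim.eventually (gt_mem_nhds hpos)).and
    (Filter.eventually_ge_atTop 1))).exists
  obtain ⟨k, hkk⟩ : ∃ k, k = φ k₀ := ⟨_, rfl⟩
  have h5 : K * (Nat.card (G ⧸ congr (J (2 ^ k))) : ℝ) ^ α ≤ ((SimpleGraph.mulCayley
      (QuotientGroup.mk '' (S : Set G) : Set (G ⧸ congr (J (2 ^ k))))).diam : ℝ) := by
    subst hkk; exact h k₀
  rw [← hkk] at hk hk1
  simp only [Function.comp] at hk
  have hm : 0 < 2 ^ k := by positivity
  have := finite_quot_J hm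
  have h3 := (two_pow_le_card hm (dvd_pow_self 2 (by omega))).trans (le_card_quot _)
  have h4 := diam_le hm ht ha
  set m := 2 ^ k
  have h6 : ((2 : ℝ) ^ α) ^ m ≤ (Nat.card (G ⧸ congr (J m)) : ℝ) ^ α := by
    rw [← Real.rpow_natCast, ← Real.rpow_mul (by norm_num), mul_comm, Real.rpow_mul (by norm_num),
      Real.rpow_natCast]
    apply Real.rpow_le_rpow (by positivity) _ hα.le
    exact_mod_cast h3
  have h7 : K * ((2 : ℝ) ^ α) ^ m ≤ 4 * (m : ℝ) ^ 2 * L :=
    (mul_le_mul_of_nonneg_left h6 hK.le).trans (h5.trans (by exact_mod_cast h4))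
  rw [div_lt_div_iff₀ (by positivity) (by positivity)] at hk
  nlinarith [sq_nonneg (m : ℝ)]

end Pool.Agent.P.MP_625351_al
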