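import Pool.Agent.P.MP_625351_al.Profile

namespace Pool.Agent.P.MP_625351_al

open LaurentPolynomial

theorem large_regime (f : ℕ → ℝ) (hf : Monotone f)
    (hlow : ∃ α : ℝ, 0 < α ∧ ∀ᶠ n : ℕ in Filter.atTop, (n : ℝ) ^ α ≤ f n)
    (ho : Filter.Tendsto (fun n : ℕ => f n / n) Filter.atTop (nhds 0)) :
    ∃ I : ℕ → Ideal (LaurentPolynomial ℤ), IsCongruenceFiltration I ∧
      ∀ S : Finset G, Subgroup.closure (S : Set G) = ⊤ →
        (∀ α : ℝ, (∀ᶠ n : ℕ in Filter.atTop, (n : ℝ) ^ α ≤ f n) → HasD S I α) ∧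
        ∃ c C : ℝ, 0 < c ∧ ∀ k,
          c * f (Nat.card (G ⧸ congr (I k))) ≤ ((SimpleGraph.mulCayley (QuotientGroup.mk ''
            (S : Set G) : Set (G ⧸ congr (I k)))).diam : ℝ) ∧
          ((SimpleGraph.mulCayley (QuotientGroup.mk '' (S : Set G) :
            Set (G ⧸ congr (I k)))).diam : ℝ) ≤ C * f (Nat.card (G ⧸ congr (I k))) := by
  obtain ⟨β, hβ, hlow⟩ := hlow
  obtain ⟨n₁, hn₁⟩ := Filter.eventually_atTop.1 (hlow.and (Filter.eventually_ge_atTop 1))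
  have hlog : ∀ᶠ n : ℕ in Filter.atTop, β * Real.log n ≤ f n := by
    filter_upwards [hlow] with n hn
    refine le_trans ?_ hn
    rw [← le_div_iff₀' hβ]
    exact Real.log_le_rpow_div (Nat.cast_nonneg n) hβ
  obtain ⟨I, hI, hn, h⟩ := profile f hf hβ hlog ho n₁
  refine ⟨I, hI, fun S hS => ?_⟩
  obtain ⟨c, C, hc, hcC⟩ := h S hS
  refine ⟨fun α hα => ?_, c, C, hc, hcC⟩
  obtain ⟨n₂, hn₂⟩ := Filter.eventually_atTop.1 hα
  have hE : (1 : ℝ) ≤ 1 + ∑ n ∈ Finset.range n₂, (n : ℝ) ^ α :=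
    le_add_of_nonneg_right (Finset.sum_nonneg fun n _ => by positivity)
  refine ⟨c / (1 + ∑ n ∈ Finset.range n₂, (n : ℝ) ^ α), by positivity, fun k => ?_⟩
  refine le_trans ?_ (hcC k).1
  have h1 := hn₁ _ (hn k)
  generalize Nat.card (G ⧸ congr (I k)) = m at h1 ⊢
  have h2 : (1 : ℝ) ≤ f m := le_trans (Real.one_le_rpow (by exact_mod_cast h1.2) hβ.le) h1.1
  rw [div_mul_eq_mul_div, mul_div_assoc]
  refine mul_le_mul_of_nonneg_left ?_ hc.le
  rw [div_le_iff₀ (by positivity)]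
  rcases le_or_gt n₂ m with h3 | h3
  · exact (hn₂ m h3).trans (le_mul_of_one_le_right (by linarith) hE)
  · have h4 : (m : ℝ) ^ α ≤ ∑ n ∈ Finset.range n₂, (n : ℝ) ^ α :=
      Finset.single_le_sum (f := fun n : ℕ => (n : ℝ) ^ α) (fun n _ => by positivity)
        (Finset.mem_range.2 h3)
    exact le_trans (by linarith) (le_mul_of_one_le_left (by linarith) h2)

theorem small_regime (f : ℕ → ℝ) (hf : Monotone f)
    (hlog : ∃ κ : ℝ, 0 < κ ∧ ∀ᶠ n : ℕ in Filter.atTop, κ * Real.log n ≤ f n)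
    (hsub : ∀ α : ℝ, 0 < α → ∀ᶠ n : ℕ in Filter.atTop, f n ≤ (n : ℝ) ^ α) :
    ∃ I : ℕ → Ideal (LaurentPolynomial ℤ), IsCongruenceFiltration I ∧
      ∀ S : Finset G, Subgroup.closure (S : Set G) = ⊤ →
        (∀ α : ℝ, 0 < α → ∀ φ : ℕ → ℕ, StrictMono φ → ¬ HasD S (fun k => I (φ k)) α) ∧
        ∃ c C : ℝ, 0 < c ∧ ∀ k,
          c * f (Nat.card (G ⧸ congr (I k))) ≤ ((SimpleGraph.mulCayley (QuotientGroup.mk ''
            (S : Set G) : Set (G ⧸ congr (I k)))).diam : ℝ) ∧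
          ((SimpleGraph.mulCayley (QuotientGroup.mk '' (S : Set G) :
            Set (G ⧸ congr (I k)))).diam : ℝ) ≤ C * f (Nat.card (G ⧸ congr (I k))) := by
  obtain ⟨κ, hκ, hlog⟩ := hlog
  have hnn : ∀ᶠ n : ℕ in Filter.atTop, 0 ≤ f n := by
    filter_upwards [hlog] with n hn
    exact le_trans (mul_nonneg hκ.le (Real.log_natCast_nonneg n)) hn
  have ho : Filter.Tendsto (fun n : ℕ => f n / n) Filter.atTop (nhds 0) := by
    have h1 := (tendsto_rpow_neg_atTop (y := 1 / 2) (by norm_num)).comp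
      tendsto_natCast_atTop_atTop
    refine squeeze_zero' ?_ ?_ h1
    · filter_upwards [hnn] with n hn
      positivity
    · filter_upwards [hsub (1 / 2) (by norm_num), Filter.eventually_ge_atTop 1] with n hn h1
      have h2 : (0 : ℝ) < n := by exact_mod_cast h1
      rw [div_le_iff₀ h2, Function.comp, ← Real.rpow_add_one h2.ne']
      norm_num
      simpa using hn
  obtain ⟨I, hI, -, h⟩ := profile f hf hκ hlog ho 0
  refine ⟨I, hI, fun S hS => ?_⟩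
  obtain ⟨c, C, hc, hcC⟩ := h S hS
  refine ⟨?_, c, C, hc, hcC⟩
  rintro α hα φ hφ ⟨K, hK, hD⟩
  obtain ⟨n₀, hn₀⟩ := Filter.eventually_atTop.1 (hnn.and ((hsub (α / 2) (by linarith)).and
    (((tendsto_rpow_atTop (y := α / 2) (by linarith)).comp
      tendsto_natCast_atTop_atTop).eventually (Filter.eventually_gt_atTop (|C| / K)))))
  obtain ⟨k, hk⟩ := exists_lt_card hI n₀
  have := hI.2.1 (φ k)
  have h1 := hk.trans_le (card_quot_antitone (hI.1 (hφ.id_le k)))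
  have h2 := (hD k).trans (hcC (φ k)).2
  generalize Nat.card (G ⧸ congr (I (φ k))) = m at h1 h2
  obtain ⟨h3, h4, h5⟩ := hn₀ m h1.le
  have h6 : (0 : ℝ) < m := by exact_mod_cast lt_of_le_of_lt (Nat.zero_le _) h1
  have h7 : (m : ℝ) ^ α = (m : ℝ) ^ (α / 2) * (m : ℝ) ^ (α / 2) := by
    rw [← Real.rpow_add h6, add_halves]
  have h8 : (0 : ℝ) < (m : ℝ) ^ (α / 2) := by positivity
  rw [Function.comp, div_lt_iff₀ hK] at h5
  have h9 : C * f m ≤ |C| * (m : ℝ) ^ (α / 2) :=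
    (mul_le_mul_of_nonneg_right (le_abs_self C) h3).trans
      (mul_le_mul_of_nonneg_left h4 (abs_nonneg C))
  rw [h7] at h2
  nlinarith [mul_lt_mul_of_pos_right h5 h8]

end Pool.Agent.P.MP_625351_al
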