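import Pool.Agent.P.MP_625351_al.Q2

namespace Pool.Agent.P.MP_625351_al

open LaurentPolynomial

/-- Evaluation at `X = 1`. -/
noncomputable def ev1 : LaurentPolynomial ℤ →+* ℤ := eval₂ (RingHom.id ℤ) 1

lemma ev1_T (n : ℤ) : ev1 (T n) = 1 := by simp [ev1, eval₂_T]

/-- The ideal of the `P ∈ (m, X^m - 1)` with `N ∣ P(1)`. -/
noncomputable def IN (m N : ℕ) : Ideal (LaurentPolynomial ℤ) :=
  RingHom.ker ((Ideal.Quotient.mk (J m)).prod ((Int.castRingHom (ZMod N)).comp ev1))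

lemma mem_IN {m N : ℕ} {P : LaurentPolynomial ℤ} :
    P ∈ IN m N ↔ P ∈ J m ∧ (N : ℤ) ∣ ev1 P := by
  rw [IN, RingHom.mem_ker, RingHom.prod_apply, Prod.mk_eq_zero, Ideal.Quotient.eq_zero_iff_mem,
    RingHom.comp_apply, eq_intCast, ZMod.intCast_zmod_eq_zero_iff_dvd]

lemma dvd_ev1_of_mem_J {m : ℕ} {P : LaurentPolynomial ℤ} (h : P ∈ J m) : (m : ℤ) ∣ ev1 P := by
  obtain ⟨a, b, rfl⟩ := Ideal.mem_span_pair.1 h
  rw [map_add, map_mul, map_mul, map_sub, ev1_T, map_one, sub_self, mul_zero, add_zero,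
    map_natCast]
  exact dvd_mul_left _ _

lemma finite_IN {m N : ℕ} (hm : 0 < m) (hN : 0 < N) :
    Finite (LaurentPolynomial ℤ ⧸ IN m N) := by
  have := finite_quot_J hm
  have : NeZero N := ⟨hN.ne'⟩
  exact Finite.of_injective _ (RingHom.kerLift_injective _)

/-- The sum of the coefficients of the upper right entry. -/
noncomputable def tot (g : G) : ℤ :=
  ev1 (((g : GL (Fin 2) (LaurentPolynomial ℤ)) :
    Matrix (Fin 2) (Fin 2) (LaurentPolynomial ℤ)) 0 1)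

lemma tot_elt (n : ℤ) (P : LaurentPolynomial ℤ) : tot (elt n P) = ev1 P := rfl

lemma tot_mul (a b : G) : tot (a * b) = tot a + tot b := by
  obtain ⟨n, P, rfl⟩ := exists_elt a
  obtain ⟨m, Q, rfl⟩ := exists_elt b
  rw [elt_mul, tot_elt, tot_elt, tot_elt, map_add, map_mul, ev1_T, one_mul, add_comm]

lemma exists_adjust {m N : ℕ} (hN : 0 < N) (hc : Nat.Coprime m N) (a : ℤ) :
    ∃ s : ℕ, s < N ∧ (N : ℤ) ∣ a - m * s := by
  have : NeZero N := ⟨hN.ne'⟩
  refine ⟨((m : ZMod N)⁻¹ * (a : ZMod N)).val, ZMod.val_lt _, ?_⟩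
  rw [← ZMod.intCast_zmod_eq_zero_iff_dvd]
  push_cast
  rw [ZMod.natCast_zmod_val, ← mul_assoc, ZMod.coe_mul_inv_eq_one _ hc, one_mul, sub_self]

lemma card_IN {m N : ℕ} (hN : 0 < N) (hc : Nat.Coprime m N) :
    Nat.card (G ⧸ congr (IN m N)) = Nat.card (G ⧸ congr (J m)) * N := by
  have : NeZero N := ⟨hN.ne'⟩
  let τ : G →* Multiplicative (ZMod N) :=
    MonoidHom.mk' (fun g => Multiplicative.ofAdd ((tot g : ℤ) : ZMod N)) (by
      intro a b
      rw [tot_mul, Int.cast_add, ofAdd_add])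
  have hτ : ∀ n P, τ (elt n P) = Multiplicative.ofAdd ((ev1 P : ℤ) : ZMod N) := fun _ _ => rfl
  let φ := (QuotientGroup.mk' (congr (J m))).prod τ
  have hker : φ.ker = congr (IN m N) := by
    ext g
    obtain ⟨n, P, rfl⟩ := exists_elt g
    rw [MonoidHom.ker_prod, Subgroup.mem_inf, QuotientGroup.ker_mk', elt_mem_congr_iff,
      elt_mem_congr_iff, MonoidHom.mem_ker, hτ, ofAdd_eq_one, ZMod.intCast_zmod_eq_zero_iff_dvd,
      mem_IN, mem_IN, map_sub, ev1_T, map_one, sub_self]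
    simp only [dvd_zero, and_true, and_assoc]
  have hsurj : φ.range = ⊤ := by
    rw [MonoidHom.range_eq_top]
    rintro ⟨x, t⟩
    obtain ⟨g, rfl⟩ := QuotientGroup.mk_surjective x
    obtain ⟨n, P, rfl⟩ := exists_elt g
    obtain ⟨a, ha⟩ := ZMod.intCast_surjective (Multiplicative.toAdd t)
    obtain ⟨s, -, hs⟩ := exists_adjust hN hc (a - ev1 P)
    refine ⟨elt n (P + m * s), Prod.ext ?_ ?_⟩
    · refine (mk_elt_eq_iff _ _ _ _ _).2 ⟨by simp, ?_⟩
      rw [add_sub_cancel_left]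
      exact Ideal.mul_mem_right _ _ (natCast_mem_J m)
    · show τ _ = t
      rw [hτ, ← ofAdd_toAdd t, ← ha, map_add, map_mul, map_natCast, map_natCast]
      congr 1
      rw [eq_comm, ZMod.intCast_eq_intCast_iff_dvd_sub]
      rw [← dvd_neg] at hs
      have h : ev1 P + m * s - a = -(a - ev1 P - m * s) := by ring
      rw [h]
      exact hs
  have h1 := Subgroup.index_ker φ
  rw [hker, hsurj, Subgroup.card_top, Nat.card_prod, Nat.card_congr Multiplicative.toAdd,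
    Nat.card_zmod] at h1
  exact h1

lemma diam_IN_le {S : Set G} {L m N : ℕ} (hm : 0 < m) (hN : 0 < N) (hc : Nat.Coprime m N)
    (ht : W S L (elt 1 0)) (ha : W S L (elt 0 1)) :
    (SimpleGraph.mulCayley (QuotientGroup.mk '' S : Set (G ⧸ congr (IN m N)))).diam ≤
      4 * m ^ 2 * L + m * N * L := by
  apply diam_le_of_W
  intro x
  obtain ⟨g, rfl⟩ := QuotientGroup.mk_surjective x
  obtain ⟨n, P, rfl⟩ := exists_elt g
  obtain ⟨c, hcm, hP⟩ := exists_normal_form hm P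
  have h0 : 0 ≤ n % m := Int.emod_nonneg _ (by omega)
  have h1 : n % m < m := Int.emod_lt_of_pos _ (by omega)
  have h2 := (W_sum ht ha c hcm m le_rfl).mul (ht.pow (n % m).toNat)
  rw [elt_one_pow, elt_mul, Int.toNat_of_nonneg h0] at h2
  simp only [zero_add, mul_zero] at h2
  set Q := ∑ j ∈ Finset.range m, (c j : LaurentPolynomial ℤ) * T j
  obtain ⟨s, hsN, hs⟩ := exists_adjust hN hc (ev1 P - ev1 Q)
  have h3 := (ha.pow (m * s)).mul h2
  rw [elt_zero_pow, elt_mul, zero_add, T_zero, one_mul] at h3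
  have h4 := h3.map (QuotientGroup.mk' (congr (IN m N)))
  have h5 : (QuotientGroup.mk (elt n P) : G ⧸ congr (IN m N)) =
      QuotientGroup.mk (elt (n % m) (Q + ((m * s : ℕ) : LaurentPolynomial ℤ))) := by
    refine (mk_elt_eq_iff _ _ _ _ _).2 ⟨mem_IN.2 ⟨T_sub_T_emod_mem_J m n, ?_⟩, mem_IN.2 ⟨?_, ?_⟩⟩
    · rw [map_sub, ev1_T, ev1_T, sub_self]
      exact dvd_zero _
    · rw [← sub_sub, Nat.cast_mul]
      exact sub_mem hP (Ideal.mul_mem_right _ _ (natCast_mem_J m))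
    · rw [map_sub, map_add, map_natCast, ← sub_sub, Nat.cast_mul]
      exact hs
  rw [h5]
  refine W.mono h4 ?_
  have h6 : (n % m).toNat ≤ m * m := by nlinarith [show (n % m).toNat ≤ m by omega]
  have h7 : m * s ≤ m * N := Nat.mul_le_mul_left m hsN.le
  nlinarith [Nat.mul_le_mul_right L h6, Nat.mul_le_mul_right L h7]

lemma le_diam_IN {S : Set G} (hS : Subgroup.closure S = ⊤) {L h N : ℕ} (hh : 0 < h) (hN : 0 < N)
    (hc : Nat.Coprime (2 * h) N) (hL : ∀ s ∈ S, |tot s| ≤ L) :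
    h * N ≤ (SimpleGraph.mulCayley
      (QuotientGroup.mk '' S : Set (G ⧸ congr (IN (2 * h) N)))).diam * L := by
  have := finite_IN (m := 2 * h) (by omega) hN
  have := finite_quot (IN (2 * h) N)
  have hW := W_diam (closure_image_mk hS (IN (2 * h) N))
    (QuotientGroup.mk (elt 0 ((h * N : ℕ) : LaurentPolynomial ℤ)))
  obtain ⟨g, hg, hgx⟩ := W.lift (QuotientGroup.mk' (congr (IN (2 * h) N))) hW
  have hb := hg.abs_le tot tot_mul L hL
  obtain ⟨n, P, rfl⟩ := exists_elt g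
  rw [tot_elt] at hb
  obtain ⟨h1, h2⟩ := mem_IN.1 ((mk_elt_eq_iff _ _ _ _ _).1 hgx).2
  have h3 := dvd_ev1_of_mem_J h1
  rw [map_sub, map_natCast] at h2 h3
  have h4 : (((2 * h : ℕ) : ℤ) * N) ∣ ev1 P - ((h * N : ℕ) : ℤ) :=
    (Nat.isCoprime_iff_coprime.2 hc).mul_dvd h3 h2
  obtain ⟨c, hc'⟩ := h4
  have h5 : ev1 P = ((h * N : ℕ) : ℤ) * (1 + 2 * c) := by
    push_cast at hc' ⊢
    linear_combination hc'
  have h6 : 1 ≤ |1 + 2 * c| := Int.one_le_abs (by omega)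
  have h7 : ((h * N : ℕ) : ℤ) ≤ |ev1 P| := by
    rw [h5, abs_mul, abs_of_nonneg (by positivity : (0 : ℤ) ≤ ((h * N : ℕ) : ℤ))]
    exact le_mul_of_one_le_right (by positivity) h6
  exact_mod_cast h7.trans hb

theorem spectrum {β : ℝ} (hβ0 : 0 < β) (hβ1 : β < 1) :
    ∃ I : ℕ → Ideal (LaurentPolynomial ℤ), IsCongruenceFiltration I ∧
      ∀ S : Finset G, Subgroup.closure (S : Set G) = ⊤ → HasD S I β ∧ ∃ C : ℝ, ∀ k,
        ((SimpleGraph.mulCayley (QuotientGroup.mk '' (S : Set G) :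
          Set (G ⧸ congr (I k)))).diam : ℝ) ≤ C * (Nat.card (G ⧸ congr (I k)) : ℝ) ^ β := by
  have hr : (1 : ℝ) < 2 ^ β := Real.one_lt_rpow (by norm_num) hβ0
  obtain ⟨k₀, hk₀⟩ := Filter.eventually_atTop.1
    ((tendsto_pow_const_div_const_pow_of_one_lt 2 hr).eventually (gt_mem_nhds one_pos))
  let c : ℕ → ℕ := fun k => Nat.card (G ⧸ congr (J (2 * 2 ^ (k + k₀))))
  have hsq : ∀ k, ((2 * 2 ^ (k + k₀) : ℕ) : ℝ) ^ 2 ≤ (c k : ℝ) ^ β := by
    intro k
    have hm : 0 < 2 * 2 ^ (k + k₀) := by positivity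
    have := finite_quot_J hm
    have h3 : 2 ^ (2 * 2 ^ (k + k₀)) ≤ c k :=
      (two_pow_le_card hm (dvd_mul_right 2 _)).trans (le_card_quot _)
    have h4 := hk₀ (2 * 2 ^ (k + k₀)) (by
      have := Nat.lt_two_pow_self (n := k + k₀)
      omega)
    set m := 2 * 2 ^ (k + k₀)
    have h6 : ((2 : ℝ) ^ β) ^ m ≤ (c k : ℝ) ^ β := by
      rw [← Real.rpow_natCast, ← Real.rpow_mul (by norm_num), mul_comm,
        Real.rpow_mul (by norm_num), Real.rpow_natCast]
      apply Real.rpow_le_rpow (by positivity) _ hβ0.le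
      exact_mod_cast h3
    rw [div_lt_one (by positivity)] at h4
    exact h4.le.trans h6
  let y : ℕ → ℝ := fun k => (c k : ℝ) ^ β / ((2 * 2 ^ (k + k₀) : ℕ) : ℝ)
  have hy : ∀ k, ((2 * 2 ^ (k + k₀) : ℕ) : ℝ) ≤ y k := by
    intro k
    rw [le_div_iff₀ (by positivity), ← sq]
    exact hsq k
  have hy1 : ∀ k, 1 ≤ y k := fun k => le_trans (by
    exact_mod_cast Nat.one_le_iff_ne_zero.2 (by positivity)) (hy k)
  have hlim : Filter.Tendsto y Filter.atTop Filter.atTop := by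
    refine Filter.tendsto_atTop_mono (fun k => le_trans ?_ (hy k)) tendsto_natCast_atTop_atTop
    have := Nat.lt_two_pow_self (n := k + k₀)
    exact_mod_cast (by omega : k ≤ 2 * 2 ^ (k + k₀))
  obtain ⟨φ, hφ, hyφ⟩ := Filter.strictMono_subseq_of_tendsto_atTop hlim
  have hb : (1 : ℝ) < 3 ^ (1 - β) := Real.one_lt_rpow (by norm_num) (by linarith)
  choose r hr1 hr2 using fun k => exists_nat_pow_near (hy1 (φ k)) hb
  have hrm : Monotone r := by
    intro k l hkl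
    have h1 : ((3 : ℝ) ^ (1 - β)) ^ r k < ((3 : ℝ) ^ (1 - β)) ^ (r l + 1) :=
      (hr1 k).trans_lt ((hyφ.monotone hkl).trans_lt (hr2 l))
    have := (pow_lt_pow_iff_right₀ hb).1 h1
    omega
  have hcop : ∀ k, Nat.Coprime (2 * 2 ^ (φ k + k₀)) (3 ^ r k) := by
    intro k
    rw [← pow_succ']
    exact Nat.Coprime.pow _ _ (by norm_num)
  have hpow : ∀ k, ((3 : ℝ) ^ (1 - β)) ^ r k * ((3 ^ r k : ℕ) : ℝ) ^ β = (3 ^ r k : ℕ) := by
    intro k
    rw [← Real.rpow_natCast, ← Real.rpow_mul (by norm_num), mul_comm (1 - β),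
      Real.rpow_mul (by norm_num), Real.rpow_natCast, Nat.cast_pow, Nat.cast_ofNat,
      ← Real.rpow_add (by positivity), sub_add_cancel, Real.rpow_one]
  have hcard : ∀ k, (Nat.card (G ⧸ congr (IN (2 * 2 ^ (φ k + k₀)) (3 ^ r k))) : ℝ) ^ β =
      y (φ k) * ((2 * 2 ^ (φ k + k₀) : ℕ) : ℝ) * ((3 ^ r k : ℕ) : ℝ) ^ β := by
    intro k
    rw [card_IN (by positivity) (hcop k), Nat.cast_mul, Real.mul_rpow (by positivity)
      (by positivity), div_mul_cancel₀ _ (by positivity)]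
  refine ⟨fun k => IN (2 * 2 ^ (φ k + k₀)) (3 ^ r k), ⟨?_, fun k => finite_IN (by positivity)
    (by positivity), ?_⟩, ?_⟩
  · intro k l hkl P hP
    rw [mem_IN] at hP ⊢
    refine ⟨?_, dvd_trans ?_ hP.2⟩
    · have h1 := hP.1
      rw [← pow_succ'] at h1 ⊢
      exact J_two_pow_antitone (show φ k + k₀ + 1 ≤ φ l + k₀ + 1 by
        have := hφ.monotone hkl
        omega) h1
    · exact_mod_cast pow_dvd_pow 3 (hrm hkl)
  · apply iInf_congr_eq_bot
    rw [eq_bot_iff, ← iInf_J]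
    refine iInf_mono fun k P hP => ?_
    have h1 := (mem_IN.1 hP).1
    rw [← pow_succ'] at h1
    exact J_two_pow_antitone (show k ≤ φ k + k₀ + 1 by
      have := hφ.id_le k
      simp only [id] at this
      omega) h1
  · intro S hS
    constructor
    · obtain ⟨L, hL0, hL⟩ : ∃ L : ℕ, 0 < L ∧ ∀ s ∈ (S : Set G), |tot s| ≤ L := by
        refine ⟨S.sup (fun s => (tot s).natAbs) + 1, by omega, fun s hs => ?_⟩
        have : (tot s).natAbs ≤ S.sup (fun s => (tot s).natAbs) :=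
          Finset.le_sup (f := fun s => (tot s).natAbs) hs
        rw [Int.abs_eq_natAbs]
        omega
      have hLr : (0 : ℝ) < L := by exact_mod_cast hL0
      refine ⟨1 / (2 * 3 ^ (1 - β) * L), by positivity, fun k => ?_⟩
      have h1 := le_diam_IN hS (h := 2 ^ (φ k + k₀)) (N := 3 ^ r k) (by positivity)
        (by positivity) (hcop k) hL
      have h2 : ((2 ^ (φ k + k₀) : ℕ) : ℝ) * ((3 ^ r k : ℕ) : ℝ) ≤ ((SimpleGraph.mulCayley
          (QuotientGroup.mk '' (S : Set G) :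
          Set (G ⧸ congr (IN (2 * 2 ^ (φ k + k₀)) (3 ^ r k))))).diam : ℝ) * L := by
        exact_mod_cast h1
      rw [hcard k, one_div, inv_mul_le_iff₀ (by positivity)]
      have h3 := hr2 k
      have h4 := hpow k
      rw [pow_succ] at h3
      calc y (φ k) * ((2 * 2 ^ (φ k + k₀) : ℕ) : ℝ) * ((3 ^ r k : ℕ) : ℝ) ^ β
          ≤ (((3 : ℝ) ^ (1 - β)) ^ r k * 3 ^ (1 - β)) * ((2 * 2 ^ (φ k + k₀) : ℕ) : ℝ) *
            ((3 ^ r k : ℕ) : ℝ) ^ β := by gcongr
        _ = 2 * 3 ^ (1 - β) * (((2 ^ (φ k + k₀) : ℕ) : ℝ) *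
            (((3 : ℝ) ^ (1 - β)) ^ r k * ((3 ^ r k : ℕ) : ℝ) ^ β)) := by
          rw [Nat.cast_mul, Nat.cast_ofNat]; ring
        _ ≤ _ := by
          rw [h4, mul_assoc (2 * 3 ^ (1 - β)), mul_comm (L : ℝ)]
          gcongr
    · obtain ⟨L1, h1⟩ := exists_W hS (elt 1 0)
      obtain ⟨L2, h2⟩ := exists_W hS (elt 0 1)
      have ht := h1.mono (le_max_left L1 L2)
      have ha := h2.mono (le_max_right L1 L2)
      set L := max L1 L2
      refine ⟨5 * L, fun k => ?_⟩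
      have h3 := diam_IN_le (m := 2 * 2 ^ (φ k + k₀)) (N := 3 ^ r k) (by positivity)
        (by positivity) (hcop k) ht ha
      have h4 : ((SimpleGraph.mulCayley (QuotientGroup.mk '' (S : Set G) :
          Set (G ⧸ congr (IN (2 * 2 ^ (φ k + k₀)) (3 ^ r k))))).diam : ℝ) ≤
          4 * ((2 * 2 ^ (φ k + k₀) : ℕ) : ℝ) ^ 2 * L +
            ((2 * 2 ^ (φ k + k₀) : ℕ) : ℝ) * ((3 ^ r k : ℕ) : ℝ) * L := by
        exact_mod_cast h3
      rw [hcard k]
      refine h4.trans ?_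
      have h5 := hy (φ k)
      have h6 := hr1 k
      have h7 := hpow k
      have h8 : (1 : ℝ) ≤ ((3 ^ r k : ℕ) : ℝ) ^ β :=
        Real.one_le_rpow (by exact_mod_cast Nat.one_le_iff_ne_zero.2 (by positivity)) hβ0.le
      have hm : (0 : ℝ) ≤ ((2 * 2 ^ (φ k + k₀) : ℕ) : ℝ) := by positivity
      have hy0 : 0 ≤ y (φ k) := hm.trans h5
      generalize ((2 * 2 ^ (φ k + k₀) : ℕ) : ℝ) = m at *
      generalize ((3 ^ r k : ℕ) : ℝ) = N at *
      have h9 : m ^ 2 ≤ y (φ k) * m * N ^ β := by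
        calc m ^ 2 = m * m * 1 := by ring
          _ ≤ _ := by gcongr
      have h10 : m * N ≤ y (φ k) * m * N ^ β := by
        calc m * N = ((3 : ℝ) ^ (1 - β)) ^ r k * m * N ^ β := by rw [← h7]; ring_nf; rw [h7]
          _ ≤ _ := by gcongr
      have hL : (0 : ℝ) ≤ L := by positivity
      nlinarith [mul_le_mul_of_nonneg_right h9 hL, mul_le_mul_of_nonneg_right h10 hL]

lemma exists_lt_card {I : ℕ → Ideal (LaurentPolynomial ℤ)} (hI : IsCongruenceFiltration I)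
    (B : ℕ) : ∃ k, B < Nat.card (G ⧸ congr (I k)) := by
  by_contra h
  push Not at h
  have h1 : elt 1 0 ^ B.factorial ∈ ⨅ k, congr (I k) := by
    rw [Subgroup.mem_iInf]
    intro k
    have := hI.2.1 k
    have := finite_quot (I k)
    obtain ⟨c, hc⟩ := Nat.dvd_factorial (Nat.card_pos (α := G ⧸ congr (I k))) (h k)
    rw [← QuotientGroup.eq_one_iff, QuotientGroup.mk_pow, hc, pow_mul, pow_card_eq_one', one_pow]
  rw [hI.2.2, Subgroup.mem_bot, elt_one_pow, ← elt_zero] at h1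
  exact B.factorial_ne_zero (by exact_mod_cast (elt_inj h1).1)

theorem spectrum_iff {β : ℝ} (hβ0 : 0 < β) (hβ1 : β < 1) :
    ∃ I : ℕ → Ideal (LaurentPolynomial ℤ), IsCongruenceFiltration I ∧
      ∀ S : Finset G, Subgroup.closure (S : Set G) = ⊤ →
        (∀ α : ℝ, HasD S I α ↔ α ≤ β) ∧ ∃ C : ℝ, ∀ k,
        ((SimpleGraph.mulCayley (QuotientGroup.mk '' (S : Set G) :
          Set (G ⧸ congr (I k)))).diam : ℝ) ≤ C * (Nat.card (G ⧸ congr (I k)) : ℝ) ^ β := by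
  obtain ⟨I, hI, h⟩ := spectrum hβ0 hβ1
  refine ⟨I, hI, fun S hS => ?_⟩
  obtain ⟨⟨K, hK, hlow⟩, C, hup⟩ := h S hS
  have hone : ∀ k, (1 : ℝ) ≤ Nat.card (G ⧸ congr (I k)) := by
    intro k
    have := hI.2.1 k
    have := finite_quot (I k)
    exact_mod_cast Nat.card_pos (α := G ⧸ congr (I k))
  refine ⟨fun α => ⟨?_, fun hα => ⟨K, hK, fun k => le_trans ?_ (hlow k)⟩⟩, C, hup⟩
  · rintro ⟨K', hK', h'⟩
    by_contra hα
    push Not at hα
    obtain ⟨B, hB⟩ := Filter.eventually_atTop.1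
      (((tendsto_rpow_atTop (sub_pos.2 hα)).comp tendsto_natCast_atTop_atTop).eventually
        (Filter.eventually_gt_atTop (C / K')))
    obtain ⟨k, hk⟩ := exists_lt_card hI B
    have h1 := hB _ hk.le
    have h2 := (h' k).trans (hup k)
    have h3 := hone k
    simp only [Function.comp] at h1
    rw [Real.rpow_sub (by linarith), div_lt_div_iff₀ hK' (by positivity)] at h1
    linarith
  · exact mul_le_mul_of_nonneg_left (Real.rpow_le_rpow_of_exponent_le (hone k) hα) hK.le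

end Pool.Agent.P.MP_625351_al
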