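import Pool.Agent.P.MP_625351_al.Q1

open Pool.Agent.P.MP_625351_al

/-- Former hand-in Q1 (now the case `f n = n ^ (1 / 2)` of LargeDiameters). -/
theorem Pool.Agent.P.MP_625351_al.variantQ1 :
    ∃ I : ℕ → Ideal (LaurentPolynomial ℤ), IsCongruenceFiltration I ∧
      ∀ S : Finset G, Subgroup.closure (S : Set G) = ⊤ → HasD S I (1 / 2) :=
  q1
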