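import Pool.Agent.P.MP_625351_al.Q2

open Pool.Agent.P.MP_625351_al

/-- Former hand-in Q2 (now the case `f = log` of SmallDiameters). -/
theorem Pool.Agent.P.MP_625351_al.variantQ2 :
    ∃ I : ℕ → Ideal (LaurentPolynomial ℤ), IsCongruenceFiltration I ∧
      ∀ S : Finset G, Subgroup.closure (S : Set G) = ⊤ → ∀ α : ℝ, 0 < α →
        ∀ φ : ℕ → ℕ, StrictMono φ → ¬ HasD S (fun k => I (φ k)) α :=
  q2
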